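import Pool.Agent.helper1.UN.Defs3

/-!
# Project UN (MP_cf4097_nt), block H: Hecke's analytic continuation and functional equation

Definitions and the four targets: PNF (Poisson summation for Gaussians with polynomial factors on ideals), TFE (theta functional
equation, all classes), MEL (integration over the units, Mellin transform), HLE (existence of the L-function with the properties HLG).
-/

set_option autoImplicit false

open NumberField Complex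

namespace Pool.Agent.UN

section defs4

variable {K : Type} [Field K] [NumberField K]

/-- the polynomial `P(x) = ∏ (x_w)^(e_w) (x_w)^(m_w)` (the conjugate of `x_w` to the power `|m_w|` if `m_w < 0`) -/
noncomputable def Pm (m : InfinitePlace K → ℤ) (e : InfinitePlace K → ℕ) (x : K) : ℂ :=
  ∏ w : InfinitePlace K, (w.embedding x) ^ (e w) *
    (if 0 ≤ m w then (w.embedding x) ^ (m w).natAbs else ((starRingEnd ℂ) (w.embedding x)) ^ (m w).natAbs)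

/-- the degrees `a_w = e_w + |m_w|` -/
def aa (m : InfinitePlace K → ℤ) (e : InfinitePlace K → ℕ) (w : InfinitePlace K) : ℕ := e w + (m w).natAbs

/-- the Gaussian `exp(-π ∑ n_w y_w w(x)²)` -/
noncomputable def Ga (y : InfinitePlace K → ℝ) (x : K) : ℝ :=
  Real.exp (-(Real.pi * ∑ w : InfinitePlace K, (w.mult : ℝ) * y w * (w x) ^ 2))

/-- the additive character `e(Tr z)` -/
noncomputable def et (z : K) : ℂ := ee ((Algebra.trace ℚ K z : ℚ) : ℝ)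

/-- the trace dual of an ideal -/
def Du (I : Ideal (𝓞 K)) : Set K := {ξ : K | ∀ x ∈ I, ∃ k : ℤ, Algebra.trace ℚ K (ξ * ((x : 𝓞 K) : K)) = k}

/-- the exponents `(a_w + i n_w τ_w)/2` -/
noncomputable def ex (τ : InfinitePlace K → ℝ) (a : InfinitePlace K → ℕ) (w : InfinitePlace K) : ℂ :=
  ((a w : ℂ) + (w.mult : ℂ) * (τ w : ℂ) * I) / 2

/-- `∏ u_w^((a_w + i n_w τ_w)/2) exp(-π ∑ n_w u_w)` -/
noncomputable def QT (τ : InfinitePlace K → ℝ) (a : InfinitePlace K → ℕ) (u : InfinitePlace K → ℝ) : ℂ :=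
  (∏ w : InfinitePlace K, ((u w : ℝ) : ℂ) ^ (ex τ a w)) *
    ((Real.exp (-(Real.pi * ∑ w : InfinitePlace K, (w.mult : ℝ) * u w)) : ℝ) : ℂ)

/-- the terms of the theta series -/
noncomputable def tq (χ : Ideal (𝓞 K) → ℂ) (τ : InfinitePlace K → ℝ) (a : InfinitePlace K → ℕ)
    (y : InfinitePlace K → ℝ) (x : 𝓞 K) : ℂ :=
  χ (Ideal.span {x}) * QT τ a (fun w => (w (x : K)) ^ 2 * y w)

/-- the theta series of the ideal `b` (the term `x = 0` is `0`, as `χ ⊥ = 0`) -/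
noncomputable def Th0 (b : Ideal (𝓞 K)) (χ : Ideal (𝓞 K) → ℂ) (τ : InfinitePlace K → ℝ) (a : InfinitePlace K → ℕ)
    (y : InfinitePlace K → ℝ) : ℂ := ∑' x : b, tq χ τ a y (x : 𝓞 K)

/-- the normalised theta series with the constant term -/
noncomputable def Th (δ : ℂ) (b : Ideal (𝓞 K)) (χ : Ideal (𝓞 K) → ℂ) (τ : InfinitePlace K → ℝ)
    (a : InfinitePlace K → ℕ) (y : InfinitePlace K → ℝ) : ℂ :=
  (starRingEnd ℂ) (χ b) * (δ * (∏ w : InfinitePlace K, ((y w : ℝ) : ℂ) ^ (ex τ a w)) + Th0 b χ τ a y)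

/-- `χ` is not a power `N(a)^(-i t₀)` of the norm -/
def NT (χ : Ideal (𝓞 K) → ℂ) : Prop :=
  ¬ ∃ t₀ : ℝ, ∀ a : Ideal (𝓞 K), a ≠ ⊥ → χ a = ph t₀ (Real.log (Nm a))

/-- the Gamma factors of the Mellin transform: `∏ (π n_w)^(-z_w) Γ(z_w)`, `z_w = (a_w + i n_w τ_w + n_w s)/2` -/
noncomputable def gf (τ : InfinitePlace K → ℝ) (a : InfinitePlace K → ℕ) (s : ℂ) : ℂ :=
  ∏ w : InfinitePlace K, ((Real.pi * (w.mult : ℝ) : ℝ) : ℂ) ^ (-(ex τ a w + (w.mult : ℂ) * s / 2)) *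
    Complex.Gamma (ex τ a w + (w.mult : ℂ) * s / 2)

end defs4

/-! ## The four targets -/

/-- **PNF**: Poisson summation. `F(x) = P(x) exp(-π ∑ n_w y_w w(x)²)` has, for the pairing `Tr(x ξ)` and the measure for which `𝓞 K` has covolume
`√|D|`, the Fourier transform `(-i)^(∑ a_w) ∏ y_w^(-(n_w/2 + a_w)) conj P(ξ) exp(-π ∑ n_w w(ξ)²/y_w)`; sum over `I + r`, covolume of `I` = `√|D| N(I)`. -/
def PNF_stmt : Prop := ∀ (K : Type) [Field K] [NumberField K] (J : Ideal (𝓞 K)) (r : 𝓞 K) (m : InfinitePlace K → ℤ)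
  (e : InfinitePlace K → ℕ) (y : InfinitePlace K → ℝ), J ≠ ⊥ → (∀ w, w.IsReal → m w = 0) → (∀ w, e w ≤ 1) →
  (∀ w, w.IsComplex → e w = 0) → (∀ w, 0 < y w) →
  Summable (fun x : J => Pm m e (((x : 𝓞 K) + r : 𝓞 K) : K) * (Ga y (((x : 𝓞 K) + r : 𝓞 K) : K) : ℂ)) ∧
  Summable (fun ξ : Du J => et ((ξ : K) * (r : K)) * (starRingEnd ℂ) (Pm m e (ξ : K)) *
    (Ga (fun w => 1 / y w) (ξ : K) : ℂ)) ∧
  ∑' x : J, Pm m e (((x : 𝓞 K) + r : 𝓞 K) : K) * (Ga y (((x : 𝓞 K) + r : 𝓞 K) : K) : ℂ) =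
    (-I) ^ (∑ w, aa m e w) / (((Dc K) ^ (1 / 2 : ℝ) * Nm J : ℝ) : ℂ) *
      ((∏ w : InfinitePlace K, (y w) ^ (-((w.mult : ℝ) / 2 + aa m e w)) : ℝ) : ℂ) *
      ∑' ξ : Du J, et ((ξ : K) * (r : K)) * (starRingEnd ℂ) (Pm m e (ξ : K)) * (Ga (fun w => 1 / y w) (ξ : K) : ℂ)

/-- **TFE**: the theta functional equation for all ideal classes. -/
def TFE_stmt : Prop := ∀ (K : Type) [Field K] [NumberField K] (f : Ideal (𝓞 K)) (χ : Ideal (𝓞 K) → ℂ)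
  (τ : InfinitePlace K → ℝ) (m : InfinitePlace K → ℤ), HCharG f χ τ m →
  ∃ (e : InfinitePlace K → ℕ) (δ ε : ℂ) (b : ClassGroup (𝓞 K) → Ideal (𝓞 K))
    (σ : ClassGroup (𝓞 K) ≃ ClassGroup (𝓞 K)) (β : ClassGroup (𝓞 K) → 𝓞 K),
    Rep b ∧ (∀ c, b c ⊔ f = ⊤) ∧ ‖ε‖ = 1 ∧ (∀ w, e w ≤ 1) ∧ (∀ w, w.IsComplex → e w = 0) ∧
    (δ = 0 ∨ δ = 1 ∧ f = ⊤ ∧ (∀ w, e w = 0 ∧ m w = 0) ∧ ∀ x : 𝓞 K, x ≠ 0 → χ (Ideal.span {x}) = Ar τ m x) ∧
    (∀ c, β c ≠ 0 ∧ Nm (Ideal.span {β c}) = Nm (b c) * Nm (b (σ c)) * (Dc K * Nm f)) ∧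
    ∀ (c : ClassGroup (𝓞 K)) (y : InfinitePlace K → ℝ), (∀ w, 0 < y w) →
      Th δ (b c) χ τ (aa m e) y =
        ε * (((∏ w : InfinitePlace K, (y w) ^ (-((w.mult : ℝ) / 2))) / (Nm (b c) * (Dc K * Nm f) ^ (1 / 2 : ℝ)) : ℝ) : ℂ) *
          (starRingEnd ℂ) (Th δ (b (σ c)) χ τ (aa m e) (fun w => 1 / ((w ((β c : 𝓞 K) : K)) ^ 2 * y w)))

/-- **MEL**: a function `h` on `(0, ∞)` with `h(1/x) = ε x^(n/2) conj (h x)` whose Mellin transform is the completed L-function. -/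
def MEL_stmt : Prop := ∀ (K : Type) [Field K] [NumberField K] (f : Ideal (𝓞 K)) (χ : Ideal (𝓞 K) → ℂ)
  (τ : InfinitePlace K → ℝ) (m : InfinitePlace K → ℤ), HCharG f χ τ m → NT χ →
  ∃ (e : InfinitePlace K → ℕ) (ε : ℂ) (κ : ℝ) (h : ℝ → ℂ), (∀ w, e w ≤ 1) ∧ (∀ w, w.IsComplex → e w = 0) ∧
    ‖ε‖ = 1 ∧ 0 < κ ∧ ContinuousOn h (Set.Ioi 0) ∧
    (∀ r : ℝ, h =O[Filter.atTop] (fun x : ℝ => x ^ r)) ∧
    (∀ x : ℝ, 0 < x → h (1 / x) = ε * ((x ^ ((Module.finrank ℚ K : ℝ) / 2) : ℝ) : ℂ) * (starRingEnd ℂ) (h x)) ∧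
    ∀ s : ℂ, 1 < s.re → mellin h ((Module.finrank ℚ K : ℂ) * s / 2) =
      κ * ((Dc K * Nm f : ℝ) : ℂ) ^ (s / 2) * gf τ (aa m e) s * ∑' a : Ideal (𝓞 K), χ a * (Nm a : ℂ) ^ (-s)

/-- **HLE**: every unitary Hecke character which is not a power of the norm has an entire L-function with the properties `HLG`. -/
def HLE_stmt : Prop := ∀ (K : Type) [Field K] [NumberField K] (f : Ideal (𝓞 K)) (χ : Ideal (𝓞 K) → ℂ)
  (τ : InfinitePlace K → ℝ) (m : InfinitePlace K → ℤ), HCharG f χ τ m → NT χ → ∃ L : ℂ → ℂ, HLG f χ τ m L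

end Pool.Agent.UN
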