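import Mathlib

/-!
# Project UN (MP_cf4097_nt): uniform subconvexity for Hecke characters of ALL number fields of degree `n`

Definitions and the three analytic target statements CORE (t-aspect), AST (level aspect), AFE (functional equation).
Paper proof: /team-store/H8_MP_cf4097_nt_helper13.md and /team-store/H8_MP_cf4097_nt_helper13_v2.md (general version).
-/

set_option autoImplicit false

open NumberField Complex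

namespace Pool.Agent.UN

/-! ## General notation -/

/-- `u ↦ exp(-i t u)` -/
noncomputable def ph (t u : ℝ) : ℂ := Complex.exp (-((t * u : ℝ) : ℂ) * I)

/-- `e(x) = exp(2πix)` -/
noncomputable def ee (x : ℝ) : ℂ := Complex.exp (((2 * Real.pi * x : ℝ) : ℂ) * I)

/-- the tent function -/
noncomputable def tent (s : ℝ) : ℝ := max 0 (1 - |s|)

/-- weights: supported in `[-1, 1]`, bounded by `1`, Lipschitz with constant `1` -/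
structure VV (V : ℝ → ℂ) : Prop where
  supp : ∀ s : ℝ, 1 < |s| → V s = 0
  bd : ∀ s : ℝ, ‖V s‖ ≤ 1
  lip : ∀ s s' : ℝ, ‖V s - V s'‖ ≤ |s - s'|

section field

variable {K : Type} [Field K] [NumberField K]

/-- norm of an ideal, as a real number -/
noncomputable def Nm (I : Ideal (𝓞 K)) : ℝ := (Ideal.absNorm I : ℝ)

variable (K) in
/-- absolute value of the discriminant -/
noncomputable def Dc : ℝ := |((NumberField.discr K : ℤ) : ℝ)|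

/-- `χ` is a primitive Hecke character of finite order with conductor `f` (as a function on the ideals):
completely multiplicative, of modulus `1` on the ideals prime to `f` and `0` on the others, `χ((x)) = χ((y))` if `x ≡ y mod f`
have the same signs at the real places, and no larger ideal `g` has this property. -/
structure HChar (f : Ideal (𝓞 K)) (χ : Ideal (𝓞 K) → ℂ) : Prop where
  f0 : f ≠ ⊥
  bot : χ ⊥ = 0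
  one : χ ⊤ = 1
  mul : ∀ a b : Ideal (𝓞 K), χ (a * b) = χ a * χ b
  unit : ∀ a : Ideal (𝓞 K), a ≠ ⊥ → a ⊔ f = ⊤ → ‖χ a‖ = 1
  zero : ∀ a : Ideal (𝓞 K), a ⊔ f ≠ ⊤ → χ a = 0
  per : ∀ x y : 𝓞 K, x ≠ 0 → y ≠ 0 → x - y ∈ f → (∀ φ : K →+* ℝ, 0 < φ x * φ y) →
    χ (Ideal.span {x}) = χ (Ideal.span {y})
  prim : ∀ g : Ideal (𝓞 K), f < g → ∃ x : 𝓞 K, x ≠ 0 ∧ x - 1 ∈ g ∧ Ideal.span {x} ⊔ f = ⊤ ∧
    (∀ φ : K →+* ℝ, 0 < φ x) ∧ χ (Ideal.span {x}) ≠ 1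

/-- `L` is the L-function of `χ` (conductor `f`): entire, polynomial growth in vertical strips, Dirichlet series, Hecke's
functional equation `Λ(s) = w * conj (Λ(1 - conj s))`, `Λ(s) = (|disc K| N(f))^{s/2} ∏_j Γ_ℝ(s + μ_j) L(s)`, `μ_j ∈ {0, 1}`
(`n = [K : ℚ]` factors), written with the entire functions `1 / Γ_ℝ`. -/
structure HL (f : Ideal (𝓞 K)) (χ : Ideal (𝓞 K) → ℂ) (L : ℂ → ℂ) : Prop where
  entire : Differentiable ℂ L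
  growth : ∀ A : ℝ, ∃ B : ℝ, ∀ s : ℂ, |s.re| ≤ A → ‖L s‖ ≤ B * (1 + |s.im|) ^ B
  series : ∀ s : ℂ, 1 < s.re → L s = ∑' a : Ideal (𝓞 K), χ a * (Nm a : ℂ) ^ (-s)
  fe : ∃ (w : ℂ) (μ : Fin (Module.finrank ℚ K) → ℝ), ‖w‖ = 1 ∧ (∀ j, μ j = 0 ∨ μ j = 1) ∧ ∀ s : ℂ,
    ((Dc K * Nm f : ℝ) : ℂ) ^ (s / 2) * L s * ∏ j, (Gammaℝ (1 - s + μ j))⁻¹ =
    w * (((Dc K * Nm f : ℝ) : ℂ) ^ ((1 - s) / 2) * (starRingEnd ℂ) (L (1 - (starRingEnd ℂ) s)) *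
      ∏ j, (Gammaℝ (s + μ j))⁻¹)

/-- the part of the conductor without the discriminant: `N(f) (1 + |t|)^n` -/
noncomputable def QQ (f : Ideal (𝓞 K)) (t : ℝ) : ℝ := Nm f * (1 + |t|) ^ (Module.finrank ℚ K)

/-- the condition on the conductor: `f = f₀ f₁` with `f₁` squarefree prime to `f₀` and `N(f₀) ≤ (N(f) (1+|t|)^n)^(1/2-κ)` -/
def Good (κ : ℝ) (f : Ideal (𝓞 K)) (t : ℝ) : Prop :=
  ∃ f₀ f₁ : Ideal (𝓞 K), f = f₀ * f₁ ∧ f₀ ⊔ f₁ = ⊤ ∧ Squarefree f₁ ∧ Nm f₀ ≤ QQ f t ^ (1 / 2 - κ)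

/-- the smooth character sum `∑ χ(a) N(a)^(-it) V(log (N(a)/X))` -/
noncomputable def SS (χ : Ideal (𝓞 K) → ℂ) (t X : ℝ) (V : ℝ → ℂ) : ℂ :=
  ∑ᶠ a : Ideal (𝓞 K), χ a * ph t (Real.log (Nm a)) * V (Real.log (Nm a) - Real.log X)

end field

/-! ## The theorem -/

/-- **(P)**, no hypothesis: cancellation in smooth sums of `χ(a) N(a)^(-it)`, uniformly in the number field. -/
def P_stmt : Prop := ∀ (n : ℕ) (κ : ℝ), 1 ≤ n → 0 < κ → ∃ d : ℝ, 0 < d ∧ ∀ ε : ℝ, 0 < ε → ∃ C : ℝ, 1 ≤ C ∧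
  ∀ (K : Type) [Field K] [NumberField K], Module.finrank ℚ K = n →
  ∀ (f : Ideal (𝓞 K)) (χ : Ideal (𝓞 K) → ℂ) (t X : ℝ) (V : ℝ → ℂ), HChar f χ → Good κ f t → VV V →
    (Dc K) ^ (1 / 2 : ℝ) * QQ f t ^ (1 / 2 - d) ≤ X →
    ‖SS χ t X V‖ ≤ C * X ^ (1 + ε) * QQ f t ^ (-d)

/-- **(U)**: the subconvex bound. -/
def U_stmt : Prop := ∀ (n : ℕ) (κ : ℝ), 1 ≤ n → 0 < κ → ∃ δ : ℝ, 0 < δ ∧ ∀ ε : ℝ, 0 < ε → ∃ C : ℝ,
  ∀ (K : Type) [Field K] [NumberField K], Module.finrank ℚ K = n →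
  ∀ (f : Ideal (𝓞 K)) (χ : Ideal (𝓞 K) → ℂ) (L : ℂ → ℂ) (t : ℝ), HChar f χ → HL f χ L → Good κ f t →
    ‖L (1 / 2 + t * I)‖ ≤ C * (Dc K * QQ f t) ^ (1 / 4 + ε) * QQ f t ^ (-δ)

/-! ## The three analytic targets -/

/-- **CORE**, the t-aspect. `∑ log |1 + h z_i|` is (a constant +) `log |N(x + h v)|`, `z_i = σ_i(v)/σ_i(x)`. Power saving `|t|^(-d)`
in the sum over `h < H ≤ |t|^η`, all `|z_i| ≤ ρ |t|^(-η)`, at least one `≥ (ρ/A) |t|^(-η)`. -/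
def CORE_stmt : Prop := ∀ (n : ℕ) (η A : ℝ), 1 ≤ n → 0 < η → η ≤ 1 / 4 → 1 ≤ A →
  ∃ ρ d C : ℝ, 0 < ρ ∧ ρ ≤ 1 / 20 ∧ 0 < d ∧ 1 ≤ C ∧
  ∀ (ι : Type) [Fintype ι], Fintype.card ι = n → ∀ (z : ι → ℂ) (t : ℝ) (H : ℕ), 1 ≤ |t| →
    (∀ i, ‖z i‖ ≤ ρ * |t| ^ (-η)) → (∃ i, ρ / A * |t| ^ (-η) ≤ ‖z i‖) → (H : ℝ) ≤ |t| ^ η →
    ‖∑ h ∈ Finset.range H, ph t (∑ i, Real.log ‖1 + (h : ℂ) * z i‖)‖ ≤ C * |t| ^ (η - d)

open Classical in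
/-- **AST**, the level aspect: a majorant `B` for all incomplete sums of `∏ ψ_i(u_i + h)`, twisted by ANY real polynomial of
degree `≤ J`, with small `2r`-th moment over `u ∈ ∏ F_i` (`F_i` the residue fields of a squarefree ideal). -/
def AST_stmt : Prop := ∀ (n r J : ℕ) (ε : ℝ), 1 ≤ n → n ≤ 2 * r → 0 < ε → ∃ C : ℝ, 1 ≤ C ∧
  ∀ (ι : Type) [Fintype ι] (F : ι → Type) [∀ i, Field (F i)] [∀ i, Fintype (F i)]
    (ψ : ∀ i, MulChar (F i) ℂ) (H : ℕ), (∀ i, ψ i ≠ 1) → 1 ≤ H →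
    ∏ i, (Fintype.card (F i) : ℝ) ≤ (H : ℝ) ^ (2 * r) →
    (∀ p : ℕ, p.Prime → ∏ i ∈ Finset.univ.filter (fun i => ((p : ℕ) : F i) = 0),
      (Fintype.card (F i) : ℝ) ≤ (p : ℝ) ^ n) →
    ∃ B : (∀ i, F i) → ℝ, (∀ u, 0 ≤ B u) ∧
      ∑ u : (∀ i, F i), B u ^ (2 * r) ≤ C * (H : ℝ) ^ (J * (J + 1) / 2 + 1 + 2 * r) *
        (∏ i, (Fintype.card (F i) : ℝ)) ^ (1 / 2 + ε) ∧
      ∀ (u : ∀ i, F i) (α : ℕ → ℝ) (H' : ℕ), H' ≤ H →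
        ‖∑ h ∈ Finset.range H', (∏ i, ψ i (u i + (h : F i))) *
          ee (∑ j ∈ Finset.range J, α j * (h : ℝ) ^ (j + 1))‖ ≤ C * B u

/-- size of the weights of the approximate functional equation, `S = √Q` -/
noncomputable def mm (S ε u : ℝ) : ℝ := min ((S * Real.exp (-u)) ^ ε) (S * Real.exp (-u))

/-- **AFE**: approximate functional equation for `L(s) = ∑ c_i N_i^(-s)` (no Stirling; kernel `exp(z²)/z`). -/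
def AFE_stmt : Prop := ∀ (n : ℕ) (ε : ℝ), 0 < ε → ε ≤ 1 → ∃ C : ℝ, 1 ≤ C ∧
  ∀ (L : ℂ → ℂ) (q : ℝ) (μ : Fin n → ℝ) (w : ℂ) (ι : Type) (c : ι → ℂ) (N : ι → ℝ),
    1 ≤ q → (∀ j, μ j = 0 ∨ μ j = 1) → ‖w‖ = 1 → Differentiable ℂ L →
    (∀ A : ℝ, ∃ B : ℝ, ∀ s : ℂ, |s.re| ≤ A → ‖L s‖ ≤ B * (1 + |s.im|) ^ B) →
    (∀ s : ℂ, (q : ℂ) ^ (s / 2) * L s * ∏ j, (Gammaℝ (1 - s + μ j))⁻¹ =
      w * ((q : ℂ) ^ ((1 - s) / 2) * (starRingEnd ℂ) (L (1 - (starRingEnd ℂ) s)) *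
        ∏ j, (Gammaℝ (s + μ j))⁻¹)) →
    (∀ i, c i ≠ 0 → 1 ≤ N i) → Summable (fun i => ‖c i‖ * N i ^ (-(3 / 2) : ℝ)) →
    (∀ s : ℂ, s.re = 3 / 2 → L s = ∑' i, c i * (N i : ℂ) ^ (-s)) →
    ∀ t : ℝ, ∃ V : Bool → ℝ → ℂ,
      (∀ b u, ‖V b u‖ ≤ C * mm (Real.sqrt (q * (1 + |t|) ^ n)) ε u) ∧
      (∀ b u u', |u - u'| ≤ 1 →
        ‖V b u - V b u'‖ ≤ C * mm (Real.sqrt (q * (1 + |t|) ^ n)) ε u * |u - u'|) ∧
      ‖L (1 / 2 + t * I)‖ ≤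
        ∑ b : Bool, ‖∑' i, c i * ((N i ^ (-(1 / 2) : ℝ) : ℝ) : ℂ) * ph t (Real.log (N i)) *
          V b (Real.log (N i))‖

end Pool.Agent.UN
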