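import Pool.Agent.helper13.UN.Spec
import Pool.Agent.helper82.UN.SpecM
import Pool.Agent.helper1.UN.SpecT
import Pool.Agent.helper87.UN.SpecF

/-!
# Project UN (MP_cf4097_nt), spec 2: ALL CONDUCTORS

RULES. Row `XXX`: file `Pool/Agent/<seat>/UN/XXX.lean`, `import Pool.Agent.helper13.UN.Spec2` (plus library files named in the
docstring), `set_option autoImplicit false`, `namespace Pool.Agent.UN`, `theorem XXX : XXX_stmt` (any other `_stmt` of `Defs`,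
`Spec`, `SpecM`, `SpecT`, `SpecF`, `Spec2` may be added as a hypothesis, no circles). Auxiliary lemmas are prefixed `XXX_`. No straight double
quotes, no convert / congr!. Land, note DONE + path, one line to helper13. Paper proof: /team-store/H8_MP_cf4097_nt_helper13_v3.md (additions to v1, v2).
-/

set_option autoImplicit false

open NumberField Complex

namespace Pool.Agent.UN

/-! ## The theorem -/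

/-- **(PG)**: cancellation for all conductors and all `t`, no hypothesis. -/
def PG_stmt : Prop := ∀ n : ℕ, 1 ≤ n → ∃ d : ℝ, 0 < d ∧ ∀ ε : ℝ, 0 < ε → ∃ C : ℝ, 1 ≤ C ∧
  ∀ (K : Type) [Field K] [NumberField K], Module.finrank ℚ K = n →
  ∀ (f : Ideal (𝓞 K)) (χ : Ideal (𝓞 K) → ℂ) (t X : ℝ) (V : ℝ → ℂ), HChar f χ → VV V →
    (Dc K) ^ (1 / 2 : ℝ) * QQ f t ^ (1 / 2 - d) ≤ X →
    ‖SS χ t X V‖ ≤ C * X ^ (1 + ε) * QQ f t ^ (-d)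

/-- **(UG)**: the subconvex bound for all conductors and all `t`. -/
def UG_stmt : Prop := ∀ n : ℕ, 1 ≤ n → ∃ δ : ℝ, 0 < δ ∧ ∀ ε : ℝ, 0 < ε → ∃ C : ℝ,
  ∀ (K : Type) [Field K] [NumberField K], Module.finrank ℚ K = n →
  ∀ (f : Ideal (𝓞 K)) (χ : Ideal (𝓞 K) → ℂ) (L : ℂ → ℂ) (t : ℝ), HChar f χ → HL f χ L →
    ‖L (1 / 2 + t * I)‖ ≤ C * (Dc K * QQ f t) ^ (1 / 4 + ε) * QQ f t ^ (-δ)

/-- **UFG** (short): `theorem UFG (hP : PG_stmt) (hAFE : AFE_stmt) (hTRI : TRI_stmt) (hPRO : PRO_stmt) (hFIN0 : FIN0_stmt) (hFSM : FSM_stmt) (hFDY : FDY_stmt)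
(hFGS : FGS_stmt) : UG_stmt`. The proof of UF (Pool/Agent/helper88/UN/UF.lean) without the hypothesis `Good`. -/
theorem UFG_doc : True := trivial

section defs

variable {K : Type} [Field K] [NumberField K]

/-- a character of `(𝓞 K / g)ˣ × signs`, as a function on the elements of `𝓞 K` -/
structure GC (g : Ideal (𝓞 K)) (G : 𝓞 K → ℂ) : Prop where
  g0 : g ≠ ⊥
  zero' : G 0 = 0
  one : G 1 = 1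
  mul : ∀ x y : 𝓞 K, G (x * y) = G x * G y
  unit : ∀ x : 𝓞 K, x ≠ 0 → Ideal.span {x} ⊔ g = ⊤ → ‖G x‖ = 1
  zero : ∀ x : 𝓞 K, Ideal.span {x} ⊔ g ≠ ⊤ → G x = 0
  per : ∀ x y : 𝓞 K, x ≠ 0 → y ≠ 0 → x - y ∈ g →
    (∀ φ : K →+* ℝ, 0 < φ ((x : 𝓞 K) : K) * φ ((y : 𝓞 K) : K)) → G x = G y

/-- the ideal `(f : w) = {u | w u ∈ f}` -/
noncomputable def cl (f : Ideal (𝓞 K)) (w : 𝓞 K) : Ideal (𝓞 K) :=
  Submodule.comap (LinearMap.lsmul (𝓞 K) (𝓞 K) w) f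

end defs

open Classical in
/-- the complete sum for the tuple `z` of shifts (the second half conjugated) -/
noncomputable def ZC {A : Type} [CommRing A] [Fintype A] (ψ : MulChar A ℂ) {r : ℕ}
    (z : Fin (r + r) → ℕ) : ℂ :=
  ∑ u : A, (∏ a : Fin r, ψ (u + ((z (Fin.castAdd r a) : ℕ) : A))) *
    (starRingEnd ℂ) (∏ a : Fin r, ψ (u + ((z (Fin.natAdd r a) : ℕ) : A)))

open Classical in
/-- square root cancellation in the complete sums of all nondegenerate tuples -/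
def CB (A : Type) [CommRing A] [Fintype A] (ψ : MulChar A ℂ) (p r : ℕ) : Prop :=
  ∀ z : Fin (r + r) → ℕ, ¬ Dg p z → ‖ZC ψ z‖ ≤ 2 * r * Real.sqrt (Fintype.card A)

/-! ## Part A: the moment method for `O/P` and `O/P²` -/

/-- **CBF** (short). Fields. `ZC` is `Pool.Agent.helper82.Weil.ZZ` (with `u + x` and `x + u` exchanged); `ZZ_bound` (Pool/Agent/helper82/Weil/M.lean); compare row ZZP (Pool/Agent/helper9/UN/ZZP.lean). -/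
def CBF_stmt : Prop := ∀ (F : Type) [Field F] [Fintype F] (ψ : MulChar F ℂ) (p r : ℕ), ψ ≠ 1 → p.Prime →
  ((p : ℕ) : F) = 0 → 1 ≤ r → CB F ψ p r

/-- **CBS** (medium). The rings `O/P²`: `N` is a maximal ideal of square zero which is one-dimensional over `A/N`. Split `A` into the classes `u₀ + N` (choose representatives). If one of the factors `u + z a` is in `N` for one `u` of the class then for all, and the terms are `0`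
(`MulChar.map_nonunit`: elements of `N` are nilpotent). Otherwise for `w ∈ N`: `ψ(u₀ + w + x) = ψ(u₀ + x) ψ(1 + w (u₀+x)⁻¹)`, `w ↦ ψ(1 + w)` is an additive character of `N` (`(1+w)(1+w') = 1 + w + w'`), so the sum over `w` is `∏.. * ∑_w θ(w L)`,
`L = ∑ (u₀ + x_a)⁻¹ - ∑ (u₀ + y_a)⁻¹`: `0` if `L ∉ N` (`w ↦ w L` is a bijection of `N` and `θ` is not trivial), of modulus `≤ card N = √card A` if `L ∈ N`. The classes `u₀` of the field `A/N` (of characteristic `p`) with all `u₀ + z a ≠ 0` and `L = 0` are roots of the polynomial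
`∑_a ± ∏_{b ≠ a} (T + z b)` of degree `≤ 2r - 1`, which is not `0` because its value at `T = - z a₀` (`a₀` isolated modulo `p`) is `± ∏_{b ≠ a₀} (z b - z a₀) ≠ 0`. So `‖ZC‖ ≤ (2r - 1) card N`. -/
def CBS_stmt : Prop := ∀ (A : Type) [CommRing A] [Fintype A] (N : Ideal A) (ψ : MulChar A ℂ) (p r : ℕ),
  N.IsMaximal → (∀ w ∈ N, ∀ w' ∈ N, w * w' = 0) → (∀ w ∈ N, w ≠ 0 → ∀ w' ∈ N, ∃ a, w' = a * w) →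
  (∃ w ∈ N, ψ (1 + w) ≠ 1) → p.Prime → ((p : ℕ) : A) ∈ N → 1 ≤ r → CB A ψ p r

open Classical in
/-- **MEX2** (short-medium). As row MEX (Pool/Agent/helper28/UN/MEX.lean), for finite rings. -/
def MEX2_stmt : Prop := ∀ {ι : Type} [Fintype ι] (A : ι → Type) [∀ i, CommRing (A i)]
    [∀ i, Fintype (A i)] (ψ : ∀ i, MulChar (A i) ℂ) (r H : ℕ) (c : ℕ → ℂ), (∀ h, ‖c h‖ ≤ 1) →
    ∑ u : (∀ i, A i), ‖∑ h ∈ Finset.range H, (∏ i, ψ i (u i + (h : A i))) * c h‖ ^ (2 * r) ≤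
      ∑ z ∈ bx (r + r) H, ∏ i, ‖ZC (ψ i) z‖

open Classical in
/-- **ZZP2** (short-medium). As row ZZP (Pool/Agent/helper9/UN/ZZP.lean): `‖ZC‖ ≤ card A_i` always, `CB` if `¬ Dg`. -/
def ZZP2_stmt : Prop := ∀ {ι : Type} [Fintype ι] (A : ι → Type) [∀ i, CommRing (A i)]
    [∀ i, Fintype (A i)] [∀ i, Nontrivial (A i)] (ψ : ∀ i, MulChar (A i) ℂ) (p : ι → ℕ) (r : ℕ), 1 ≤ r →
    (∀ i, CB (A i) (ψ i) (p i) r) →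
    ∀ z : Fin (r + r) → ℕ, ∏ i, ‖ZC (ψ i) z‖ ≤
      (2 * r : ℝ) ^ Fintype.card ι * Real.sqrt (∏ i, (Fintype.card (A i) : ℝ)) *
        ∏ q ∈ (Finset.univ.image p).filter (fun q => Dg q z),
          ∏ i ∈ Finset.univ.filter (fun i => p i = q), Real.sqrt (Fintype.card (A i))

open Classical in
/-- **NPR2** (short-medium). As row NPR (Pool/Agent/helper78/UN/NPR.lean). -/
def NPR2_stmt : Prop := ∀ (m : ℕ) (B ε : ℝ), 1 ≤ B → 0 < ε → ∃ C : ℝ, 1 ≤ C ∧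
    ∀ (ι : Type) [Fintype ι] (a : ι → ℕ) (p : ι → ℕ), (∀ i, (p i).Prime ∧ p i ≤ a i) →
    (∀ q : ℕ, q.Prime → ∏ i ∈ Finset.univ.filter (fun i => p i = q), (a i : ℝ) ≤ (q : ℝ) ^ m) →
    B ^ Fintype.card ι ≤ C * (∏ i, (a i : ℝ)) ^ ε

open Classical in
/-- **AST2** (medium-long). As row AST (Pool/Agent/helper29/UN/AST.lean), with MEX2, ZZP2, NPR2 (and DGS DGF DGN DGW NET). `p i ≤ card` and `card ≥ 2` give the nontriviality. -/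
def AST2_stmt : Prop := ∀ (m r J : ℕ) (ε : ℝ), 1 ≤ m → m ≤ 2 * r → 0 < ε → ∃ C : ℝ, 1 ≤ C ∧
  ∀ (ι : Type) [Fintype ι] (A : ι → Type) [∀ i, CommRing (A i)] [∀ i, Fintype (A i)]
    (ψ : ∀ i, MulChar (A i) ℂ) (p : ι → ℕ) (H : ℕ),
    (∀ i, (p i).Prime ∧ p i ≤ Fintype.card (A i) ∧ CB (A i) (ψ i) (p i) r) → 1 ≤ H →
    ∏ i, (Fintype.card (A i) : ℝ) ≤ (H : ℝ) ^ (2 * r) →
    (∀ q : ℕ, q.Prime → ∏ i ∈ Finset.univ.filter (fun i => p i = q),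
      (Fintype.card (A i) : ℝ) ≤ (q : ℝ) ^ m) →
    ∃ B : (∀ i, A i) → ℝ, (∀ u, 0 ≤ B u) ∧
      ∑ u : (∀ i, A i), B u ^ (2 * r) ≤ C * (H : ℝ) ^ (J * (J + 1) / 2 + 1 + 2 * r) *
        (∏ i, (Fintype.card (A i) : ℝ)) ^ (1 / 2 + ε) ∧
      ∀ (u : ∀ i, A i) (α : ℕ → ℝ) (H' : ℕ), H' ≤ H →
        ‖∑ h ∈ Finset.range H', (∏ i, ψ i (u i + (h : A i))) *
          ee (∑ j ∈ Finset.range J, α j * (h : ℝ) ^ (j + 1))‖ ≤ C * B u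

/-- **PSG** (long; may be split by the prover; see row PSI, Pool/Agent/helper95/UN/PSI.lean). Factorisation of the character. `f = g h` coprime, `h = ∏ P^{k}`, `k ∈ {1, 2}`. For an ideal `m` (a factor of `f = m m'`, `m ⊔ m' = ⊤`) put `G_m(y) = χ((y'))` for any `y' ≠ 0` with
`y' ≡ y mod m`, `y' ≡ 1 mod m'` and the signs of `y` (`m = g`), resp. totally positive (`m = P^k`): it exists (CRT, add a suitable multiple of `Nm f`), is independent of `y'` (`HChar.per`), multiplicative; `χ((y)) = G_g(y) ∏_P G_{P^k}(y)` because the product of the `y'` is `≡ y mod f` with the same signs.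
`A = 𝓞 K ⧸ P^k`, `ψ(mk y) = G_{P^k}(y)` on units. `k = 1`: a field, `ψ ≠ 1` by `HChar.prim` for `f/P`: CBF. `k = 2`: `N = P/P²`, `ψ(1 + w) ≠ 1` for one `w ∈ N` by `HChar.prim` for `f/P`: CBS. `p` = the prime number in `P`; `Nm P ≥ p`; `∏_{P | p} Nm(P^k) ≤ p^(2n)` as `∏ P^k ∣ (p)²`. -/
def PSG_stmt : Prop := ∀ (K : Type) [Field K] [NumberField K] (g h : Ideal (𝓞 K)) (χ : Ideal (𝓞 K) → ℂ),
  HChar (g * h) χ → g ⊔ h = ⊤ → (∀ P : Ideal (𝓞 K), P.IsPrime → ¬ P ^ 3 ∣ h) →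
  ∃ (ι : Type) (_ : Fintype ι) (A : ι → Type) (_ : ∀ i, CommRing (A i)) (_ : ∀ i, Fintype (A i))
    (π : ∀ i, 𝓞 K →+* A i) (ψ : ∀ i, MulChar (A i) ℂ) (p : ι → ℕ) (G : 𝓞 K → ℂ), GC g G ∧
    (∀ i, (p i).Prime ∧ p i ≤ Fintype.card (A i) ∧ ((p i : ℕ) : 𝓞 K) ≠ 0 ∧ ∀ r, 1 ≤ r → CB (A i) (ψ i) (p i) r) ∧
    (∏ i, (Fintype.card (A i) : ℝ) = Nm h) ∧ (∀ y : 𝓞 K, (∀ i, π i y = 0) ↔ y ∈ h) ∧
    (∀ y : 𝓞 K, Ideal.span {y} ⊔ h = ⊤ → ∀ i, IsUnit (π i y)) ∧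
    (∀ (q : ℕ) (S : Finset ι), q.Prime → (∀ i ∈ S, p i = q) →
      ∏ i ∈ S, (Fintype.card (A i) : ℝ) ≤ (q : ℝ) ^ (2 * Module.finrank ℚ K)) ∧
    ∀ y : 𝓞 K, y ≠ 0 → χ (Ideal.span {y}) = G y * ∏ i, ψ i (π i y)

/-- **GCX** (short). `x ↦ χ((x))` is a `GC`. -/
def GCX_stmt : Prop := ∀ (K : Type) [Field K] [NumberField K] (f : Ideal (𝓞 K)) (χ : Ideal (𝓞 K) → ℂ),
  HChar f χ → GC f (fun x => χ (Ideal.span {x}))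

/-- **PPH** (medium). Polynomial phases. If `x` is not prime to `g`, then no `x + jv` is (a prime ideal containing `g` contains `v^3`, so `v`), and both sides are `0`. Otherwise all are prime to `g` and with `c_j = G(x + jv)`, `‖c_j‖ = 1`, `X = x + jv`:
`(X+3v)(X+v)^3 - (X+2v)^3 X = v^3 (2X + 3v) ∈ g`, both products are nonzero and positive at the real places: `c_{j+3} c_{j+1}^3 = c_{j+2}^3 c_j` (`GC.per`, `GC.mul`). So `c_j = c_0 ee(α_0 j + α_1 j²)` with `α` chosen so that it is right for `j = 1, 2` (`Complex.arg`; if `H < 2` fewer conditions), by induction.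
Second part: `v^4 ∈ g`, fourth differences: `(X+4v)(X+2v)^6 X - (X+3v)^4 (X+v)^4` is divisible by `v^4` (`ring`); `c_{j+4} c_{j+2}^6 c_j = c_{j+3}^4 c_{j+1}^4`, cubic. -/
def PPH_stmt : Prop := ∀ (K : Type) [Field K] [NumberField K] (g : Ideal (𝓞 K)) (G : 𝓞 K → ℂ) (x v : 𝓞 K)
  (H : ℕ), GC g G → (∀ j ≤ H, x + (j : 𝓞 K) * v ≠ 0) →
  (∀ j ≤ H, ∀ j' ≤ H, ∀ φ : K →+* ℝ,
    0 < φ ((x + (j : 𝓞 K) * v : 𝓞 K) : K) * φ ((x + (j' : 𝓞 K) * v : 𝓞 K) : K)) →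
  (v ^ 3 ∈ g → ∃ α : ℕ → ℝ, ∀ j ≤ H, G (x + (j : 𝓞 K) * v) =
    G x * ee (∑ l ∈ Finset.range 2, α l * (j : ℝ) ^ (l + 1))) ∧
  (v ^ 4 ∈ g → ∃ α : ℕ → ℝ, ∀ j ≤ H, G (x + (j : 𝓞 K) * v) =
    G x * ee (∑ l ∈ Finset.range 3, α l * (j : ℝ) ^ (l + 1)))

/-- **SQ2** (medium). The prime powers of `a` (exponents `1, 2`) whose prime contains `v` form `a₁`, the others `h`; `e = rad(a₁)`: `v ∈ e`, `e² ⊆ a₁`. -/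
def SQ2_stmt : Prop := ∀ (K : Type) [Field K] [NumberField K] (f' a q' : Ideal (𝓞 K)) (v : 𝓞 K), f' * a ≠ ⊥ →
  f' ⊔ a = ⊤ → (∀ P : Ideal (𝓞 K), P.IsPrime → ¬ P ^ 3 ∣ a) → f' ≤ q' → q' ^ 3 ≤ f' → v ∈ q' →
  ∃ a₁ h e : Ideal (𝓞 K), a = a₁ * h ∧ (f' * a₁) ⊔ h = ⊤ ∧ Ideal.span {v} ⊔ h = ⊤ ∧ v ^ 3 ∈ f' * a₁ ∧
    (∀ P : Ideal (𝓞 K), P.IsPrime → ¬ P ^ 3 ∣ h) ∧ e ∣ a ∧ v ∈ e ∧ e ⊔ q' = ⊤ ∧ Nm a₁ ≤ Nm e ^ 2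

open Classical in
/-- **LV2** (long). As row LV (helper76), with PSG, PPH, AST2 in place of PSI, AST. `Y = X N(b)`, shifts `h' m v`. For `x ∈ An`, `m ∈ P`: `χ((x + h' m v)) = G(x + h' m v) ∏ ψ_i(π_i x + h' m π_i v)`; `(m v)^3 ∈ g`: PPH gives `G(x + h' (m v)) = G(x) ee(quadratic)`; POL: the archimedean phase is
`ee(polynomial of degree J) * B h'`; `J ≥ 2`: together one polynomial of degree `J`. `∏ ψ_i(..) = ∏ ψ_i(m π_i v) ∏ ψ_i(u_i + h')` with the units `π_i v` and `(m : A i)` (`m` a prime not dividing `absNorm h`), `u_i = π_i x (m π_i v)⁻¹`. AST2 with `m := 2n` (`n ≤ r`). The rest is the same. -/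
def LV2_stmt : Prop := ∀ (n J r : ℕ) (ε : ℝ), 1 ≤ n → 2 ≤ J → n ≤ r → 1 ≤ r → 0 < ε → ∃ C : ℝ, 1 ≤ C ∧
  ∀ (K : Type) [Field K] [NumberField K], Module.finrank ℚ K = n →
  ∀ (g h b : Ideal (𝓞 K)) (χ : Ideal (𝓞 K) → ℂ) (t X : ℝ) (V : ℝ → ℂ) (k : InfinitePlace K → ℤ) (v : 𝓞 K)
    (ρ lam : ℝ) (H M : ℕ) (P : Finset ℕ), HChar (g * h) χ → g ⊔ h = ⊤ →
    (∀ P : Ideal (𝓞 K), P.IsPrime → ¬ P ^ 3 ∣ h) → b ≠ ⊥ →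
    b ⊔ (g * h) = ⊤ → VV V → 0 < X → v ∈ Bx b (X * Nm b) k ρ → v ^ 3 ∈ g → Ideal.span {v} ⊔ h = ⊤ →
    0 < ρ → 1 ≤ H →
    (M : ℝ) * H * ρ ≤ 1 / 1000 → |t| * (Real.exp 3 * M * H * ρ) ^ (J + 1) ≤ 1 →
    Nm h ≤ (H : ℝ) ^ (2 * r) → P.Nonempty → (∀ m ∈ P, m.Prime ∧ m ≤ M ∧ ¬ m ∣ Ideal.absNorm h) →
    0 < lam →
    ‖TT b (gg χ t (X * Nm b) V) k‖ ≤ C * (lam * nB b (X * Nm b) k C +
      lam⁻¹ ^ (2 * r - 1) * (Nm h ^ (1 / 2 + ε) * (H : ℝ) ^ (J * (J + 1) / 2 + 1) / P.card) *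
        (1 + nB (h * b) (X * Nm b) k (C * M)))

open Classical in
/-- **LB2** (long). As row LB (helper21), with LV2, SQ2 in place of LV, SQF. `Q = QQ (f' a) t`, `ρ = Q^(-κ/(2n))`, the same parameters. Case (i): there is `v ∈ Bx (q' * b) Y k ρ` for which SQ2 gives `h` with `Q^(κ/4) ≤ N(h)`: LV2 with `g = f' a₁`. Case (ii): for every `v ∈ Bx (q' * b) Y k ρ`:
`N(a₁) ≥ N(a) Q^(-κ/4) ≥ Q^(3κ/4)`, so `N(e) ≥ Q^(3κ/8)`, `v ∈ e ⊓ (q' * b) = e * (q' * b)` (pairwise coprime). -/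
def LB2_stmt : Prop := ∀ (n : ℕ) (κ : ℝ), 1 ≤ n → 0 < κ → κ ≤ 1 / 4 → ∃ (r : ℕ) (C : ℝ), 1 ≤ r ∧ 1 ≤ C ∧
  ∀ (K : Type) [Field K] [NumberField K], Module.finrank ℚ K = n →
  ∀ (f' a q' b : Ideal (𝓞 K)) (χ : Ideal (𝓞 K) → ℂ) (t X lam : ℝ) (V : ℝ → ℂ) (k : InfinitePlace K → ℤ),
    HChar (f' * a) χ → f' ⊔ a = ⊤ → (∀ P : Ideal (𝓞 K), P.IsPrime → ¬ P ^ 3 ∣ a) → f' ≤ q' → q' ^ 3 ≤ f' →
    b ≠ ⊥ → b ⊔ (f' * a) = ⊤ → VV V → 0 < X → Rel k →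
    0 < lam → C ≤ QQ (f' * a) t → QQ (f' * a) t ^ κ ≤ Nm a →
    C * Nm q' * (Dc K) ^ (1 / 2 : ℝ) * QQ (f' * a) t ^ (κ / 2) ≤ X →
    ‖TT b (gg χ t (X * Nm b) V) k‖ ≤ C * (lam * nB b (X * Nm b) k C +
      ∑ h ∈ (dv a).filter (fun h => QQ (f' * a) t ^ (κ / 4) ≤ Nm h),
        lam⁻¹ ^ (2 * r - 1) * (Nm h ^ (1 / 2 : ℝ) * QQ (f' * a) t ^ (-(κ / (64 * n)))) *
          (1 + nB (h * b) (X * Nm b) k (C * QQ (f' * a) t ^ (κ / (16 * n)))) +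
      Nm q' * QQ (f' * a) t ^ (κ / 2) *
        ∑ e ∈ (dv a).filter (fun e => QQ (f' * a) t ^ (3 * κ / 8) ≤ Nm e),
          nB (e * (q' * b)) (X * Nm b) k (QQ (f' * a) t ^ (-(κ / (2 * n)))))

/-- **DVG** (short/medium). Divisors of any ideal. The norm of a divisor divides `Nm f`, so their number is `≤ ∑_{m | Nm f} (number of ideals of norm m) ≤ d(Nm f)^(n+1)` (IDM) `≤ C Nm f^ε` (`divisor_bound`, `Pool.Agent.helper59.DM.DV`; compare Pool/Agent/helper97/UN/DIV.lean, Pool/Agent/helper59/UN/IDN.lean). -/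
def DVG_stmt : Prop := ∀ (n : ℕ) (ε : ℝ), 1 ≤ n → 0 < ε → ∃ C : ℝ, 1 ≤ C ∧
  ∀ (K : Type) [Field K] [NumberField K], Module.finrank ℚ K = n → ∀ f : Ideal (𝓞 K), f ≠ ⊥ →
    ((dv f).card : ℝ) ≤ C * Nm f ^ ε

/-- **PL2** (medium/long). As PL (Pool/Agent/helper13/UN/PL.lean), with LB2, DVG. -/
def PL2_stmt : Prop := ∀ (n : ℕ) (κ : ℝ), 1 ≤ n → 0 < κ → κ ≤ 1 / 4 → ∃ d₀ : ℝ, 0 < d₀ ∧ ∀ d : ℝ, 0 < d → d ≤ d₀ →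
  ∀ ε : ℝ, 0 < ε → ∃ C : ℝ, 1 ≤ C ∧
  ∀ (K : Type) [Field K] [NumberField K], Module.finrank ℚ K = n →
  ∀ (f' a q' : Ideal (𝓞 K)) (χ : Ideal (𝓞 K) → ℂ) (t X : ℝ) (V : ℝ → ℂ), HChar (f' * a) χ → f' ⊔ a = ⊤ →
    (∀ P : Ideal (𝓞 K), P.IsPrime → ¬ P ^ 3 ∣ a) → f' ≤ q' → q' ^ 3 ≤ f' → VV V →
    Nm q' ≤ QQ (f' * a) t ^ (1 / 2 - κ) → QQ (f' * a) t ^ κ ≤ Nm a →
    (Dc K) ^ (1 / 2 : ℝ) * QQ (f' * a) t ^ (1 / 2 - d) ≤ X →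
    ‖SS χ t X V‖ ≤ C * X ^ (1 + ε) * QQ (f' * a) t ^ (-d)

/-! ## Part B: the t-aspect with a quadratic phase -/

/-- **ONE2** (short/medium). As row ONE (Pool/Agent/helper59/UN/ONE.lean), with the extra factor `ee(α_0 h + α_1 h²)`, `h = r + a (n-1)`: `f n` is changed by a quadratic polynomial in `n`, and `dd k` of a quadratic polynomial is `0` for `k ≥ 3`. -/
def ONE2_stmt : Prop := ∀ (k : ℕ) (c₁ c₂ : ℝ), 3 ≤ k → 0 < c₁ → c₁ ≤ c₂ → ∃ C : ℝ, 1 ≤ C ∧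
  ∀ (ι : Type) [Fintype ι] (z : ι → ℂ) (α : ℕ → ℝ) (t μ : ℝ) (H a r N : ℕ), 1 ≤ |t| → 0 < μ → 1 ≤ a →
    (∀ i, (H : ℝ) * ‖z i‖ ≤ 1 / 2) →
    ((∀ x ∈ Set.Icc (0 : ℝ) H, c₁ * μ ^ k ≤ GG z k x ∧ GG z k x ≤ c₂ * μ ^ k) ∨
      (∀ x ∈ Set.Icc (0 : ℝ) H, c₁ * μ ^ k ≤ -GG z k x ∧ -GG z k x ≤ c₂ * μ ^ k)) →
    1 ≤ a * μ * |t| ^ (1 / ((k : ℝ) - 2)) → a * μ * |t| ^ (1 / ((k : ℝ) - 2)) ≤ 2 →
    (∀ m, m < N → r + a * m < H) → (N : ℝ) ≤ 2 * |t| ^ (1 / ((k : ℝ) - 2)) →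
    ‖∑ n ∈ Finset.Ioc 0 N, ph t (GG z 0 ((r + a * (n - 1) : ℕ) : ℝ)) *
      ee (∑ l ∈ Finset.range 2, α l * ((r + a * (n - 1) : ℕ) : ℝ) ^ (l + 1))‖ ≤
      C * |t| ^ ((1 - 1 / 2 ^ k) / ((k : ℝ) - 2))

/-- **CORE2** (short/medium). As row CORE (Pool/Agent/helper60/UN/CORE.lean), with ONE2. -/
def CORE2_stmt : Prop := ∀ (n : ℕ) (η A : ℝ), 1 ≤ n → 0 < η → η ≤ 1 / 4 → 1 ≤ A →
  ∃ ρ d C : ℝ, 0 < ρ ∧ ρ ≤ 1 / 20 ∧ 0 < d ∧ 1 ≤ C ∧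
  ∀ (ι : Type) [Fintype ι], Fintype.card ι = n → ∀ (z : ι → ℂ) (α : ℕ → ℝ) (t : ℝ) (H : ℕ), 1 ≤ |t| →
    (∀ i, ‖z i‖ ≤ ρ * |t| ^ (-η)) → (∃ i, ρ / A * |t| ^ (-η) ≤ ‖z i‖) → (H : ℝ) ≤ |t| ^ η →
    ‖∑ h ∈ Finset.range H, ph t (∑ i, Real.log ‖1 + (h : ℂ) * z i‖) *
      ee (∑ l ∈ Finset.range 2, α l * (h : ℝ) ^ (l + 1))‖ ≤ C * |t| ^ (η - d)

/-- **TB2** (medium/long). As row TB (helper81), with `v ∈ q * b`, `v^3 ∈ f`: `χ((x + hv)) = χ((x)) ee(quadratic)` by GCX, PPH; CORE2. -/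
def TB2_stmt : Prop := ∀ (n : ℕ) (η : ℝ), 1 ≤ n → 0 < η → η ≤ 1 / 4 → ∃ d C : ℝ, 0 < d ∧ 1 ≤ C ∧
  ∀ (K : Type) [Field K] [NumberField K], Module.finrank ℚ K = n →
  ∀ (f q b : Ideal (𝓞 K)) (χ : Ideal (𝓞 K) → ℂ) (t X : ℝ) (V : ℝ → ℂ) (k : InfinitePlace K → ℤ),
    HChar f χ → q ≠ ⊥ → q ^ 3 ≤ f → b ≠ ⊥ → b ⊔ f = ⊤ → VV V → Rel k → 1 ≤ |t| → 0 < X →
    C * Nm q * (Dc K) ^ (1 / 2 : ℝ) * |t| ^ (n * η) ≤ X →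
    ‖TT b (gg χ t (X * Nm b) V) k‖ ≤ C * |t| ^ (-d) * nB b (X * Nm b) k C

/-- **PT2** (medium). As row PT (Pool/Agent/helper32/UN/PT.lean), TB2 with `η = κ/2`. -/
def PT2_stmt : Prop := ∀ (n : ℕ) (κ : ℝ), 1 ≤ n → 0 < κ → κ ≤ 1 / 4 → ∃ d₀ : ℝ, 0 < d₀ ∧ ∀ d : ℝ, 0 < d → d ≤ d₀ →
  ∀ ε : ℝ, 0 < ε → ∃ C : ℝ, 1 ≤ C ∧
  ∀ (K : Type) [Field K] [NumberField K], Module.finrank ℚ K = n →
  ∀ (f q : Ideal (𝓞 K)) (χ : Ideal (𝓞 K) → ℂ) (t X : ℝ) (V : ℝ → ℂ), HChar f χ → q ≠ ⊥ → q ^ 3 ≤ f → VV V →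
    Nm q ≤ QQ f t ^ (1 / 2 - κ) → QQ f t ^ κ ≤ (1 + |t|) ^ n →
    (Dc K) ^ (1 / 2 : ℝ) * QQ f t ^ (1 / 2 - d) ≤ X →
    ‖SS χ t X V‖ ≤ C * X ^ (1 + ε) * QQ f t ^ (-d)

/-! ## Part C: powerful conductors -/

/-- **CLF** (medium). The ideal `(f : w)`. `f = (f : w) * (span {w} ⊔ f)` (Dedekind: `I * J ≤ f ↔ ..`; or count exponents). -/
def CLF_stmt : Prop := ∀ (K : Type) [Field K] [NumberField K] (f : Ideal (𝓞 K)) (w : 𝓞 K), f ≠ ⊥ →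
  cl f w ≠ ⊥ ∧ f ≤ cl f w ∧ f = cl f w * (Ideal.span {w} ⊔ f) ∧ (∀ u, u ∈ cl f w ↔ w * u ∈ f) ∧
  (∀ b : Ideal (𝓞 K), b ⊔ f = ⊤ → b ⊔ cl f w = ⊤) ∧
  ∀ (v : 𝓞 K) (i : ℕ), Nm (Ideal.span {v ^ i} ⊔ f) ≤ Nm (Ideal.span {v} ⊔ f) ^ i

/-- **AD2** (medium/long). The top coefficient of the quadratic phase. For `u ∈ 𝓞 K` let `Θ(u) = χ((y))` for any `y ≠ 0`, totally positive, `y ≡ 1 + v² u mod f` (exists; independent of `y` by `HChar.per`; `y` is prime to `f` because every prime containing `f` contains `v`). Additive: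
`(1 + v² u)(1 + v² u') ≡ 1 + v²(u + u') mod f` as `v³ ∈ f`; trivial on `cl f (v²)`; `θ` = the induced `AddChar` of the quotient. Primitive: if `a ∉ cl f (v²)` then `g = span {v² a} ⊔ f` is larger than `f`; `HChar.prim` gives `x ≡ 1 mod g` with `χ((x)) ≠ 1`, `x = 1 + v² a u + (element of f)`, so
`θ(a u) ≠ 1`. Formula: `(x + 2v) x = (x + v)² - v²` and `x x' ≡ 1`: `(x+2v) x ≡ y (x+v)² mod f` with `y ≡ 1 - v² x'²` (`v² (x+v)² x'² ≡ v² mod f` because `v³ ∈ f`), same signs; so `G(x+2v) G(x) = θ(-x'²) G(x+v)²`, `‖G(x+v)‖ = 1`. -/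
def AD2_stmt : Prop := ∀ (K : Type) [Field K] [NumberField K] (f : Ideal (𝓞 K)) (χ : Ideal (𝓞 K) → ℂ) (v : 𝓞 K),
  HChar f χ → v ^ 3 ∈ f → ∃ θ : AddChar (𝓞 K ⧸ cl f (v ^ 2)) ℂ, θ.IsPrimitive ∧ (∀ u, ‖θ u‖ = 1) ∧
    ∀ x x' : 𝓞 K, x * x' - 1 ∈ f → (∀ j : ℕ, j ≤ 2 → x + (j : 𝓞 K) * v ≠ 0) →
      (∀ j j' : ℕ, j ≤ 2 → j' ≤ 2 → ∀ φ : K →+* ℝ,
        0 < φ ((x + (j : 𝓞 K) * v : 𝓞 K) : K) * φ ((x + (j' : 𝓞 K) * v : 𝓞 K) : K)) →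
      χ (Ideal.span {x + ((2 : ℕ) : 𝓞 K) * v}) * χ (Ideal.span {x}) *
        (starRingEnd ℂ) (χ (Ideal.span {x + ((1 : ℕ) : 𝓞 K) * v})) ^ 2 =
      θ (Ideal.Quotient.mk _ (-(x' ^ 2)))

/-- **AD3** (medium/long). The same for the cubic phase: `Θ(u) = χ((y))`, `y ≡ 1 + v³ u`, `v⁴ ∈ f`; `(x+3v)(x+v)³ - (x+2v)³ x = v³ (2x + 3v)`, so `(x+3v)(x+v)³ ≡ y (x+2v)³ x` with `y ≡ 1 + 2 v³ x'³ mod f`. -/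
def AD3_stmt : Prop := ∀ (K : Type) [Field K] [NumberField K] (f : Ideal (𝓞 K)) (χ : Ideal (𝓞 K) → ℂ) (v : 𝓞 K),
  HChar f χ → v ^ 4 ∈ f → ∃ θ : AddChar (𝓞 K ⧸ cl f (v ^ 3)) ℂ, θ.IsPrimitive ∧ (∀ u, ‖θ u‖ = 1) ∧
    ∀ x x' : 𝓞 K, x * x' - 1 ∈ f → (∀ j : ℕ, j ≤ 3 → x + (j : 𝓞 K) * v ≠ 0) →
      (∀ j j' : ℕ, j ≤ 3 → j' ≤ 3 → ∀ φ : K →+* ℝ,
        0 < φ ((x + (j : 𝓞 K) * v : 𝓞 K) : K) * φ ((x + (j' : 𝓞 K) * v : 𝓞 K) : K)) →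
      χ (Ideal.span {x + ((3 : ℕ) : 𝓞 K) * v}) * χ (Ideal.span {x + ((1 : ℕ) : 𝓞 K) * v}) ^ 3 *
        (starRingEnd ℂ) (χ (Ideal.span {x + ((2 : ℕ) : 𝓞 K) * v}) ^ 3 * χ (Ideal.span {x})) =
      θ (Ideal.Quotient.mk _ (2 * x' ^ 3))

open Classical in
/-- **KR1** (short/medium). Kernels in `𝓞 K ⧸ m`. Kernel and cokernel of multiplication by `a` on the finite group `𝓞 K ⧸ m` have the same cardinality, and the cokernel is a quotient of `𝓞 K ⧸ a 𝓞 K`, of cardinality `a^n`. Second part: for given `w` the number of `w'` is that of the kernel of `a w`, i.e.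
`Nm (gcd(a w, m)) ≤ a^n Nm (gcd(w, m))`, and for every divisor `e` of `m` at most `Nm m / Nm e` classes `w` have `gcd(w, m) = e`: the sum is `≤ (dv m).card * Nm m * a^n`. -/
def KR1_stmt : Prop := ∀ (K : Type) [Field K] [NumberField K] (m : Ideal (𝓞 K)) (a : ℕ), m ≠ ⊥ → 1 ≤ a →
  (({w : 𝓞 K ⧸ m | (a : 𝓞 K ⧸ m) * w = 0}.ncard : ℕ) : ℝ) ≤ (a : ℝ) ^ Module.finrank ℚ K ∧
  (({w : (𝓞 K ⧸ m) × (𝓞 K ⧸ m) | (a : 𝓞 K ⧸ m) * (w.1 * w.2) = 0}.ncard : ℕ) : ℝ) ≤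
    (dv m).card * Nm m * (a : ℝ) ^ Module.finrank ℚ K

open Classical in
/-- **FS2** (short). Quadratic Gauss sums over finite rings: `‖∑ u, θ(b u²)‖² = ∑ w, θ(b w²) ∑ u, θ(2 b w u)`, and the inner sum is `card A` if `2 b w = 0` and `0` otherwise (`AddChar.sum_mulShift`). -/
def FS2_stmt : Prop := ∀ (A : Type) [CommRing A] [Fintype A] (θ : AddChar A ℂ) (b : A), θ.IsPrimitive →
  (∀ u, ‖θ u‖ = 1) →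
  ‖∑ u : A, θ (b * u ^ 2)‖ ^ 2 ≤ (Fintype.card A : ℝ) * (({w : A | 2 * b * w = 0}.ncard : ℕ) : ℝ)

open Classical in
/-- **FS3** (short/medium). Cubic sums, two differencing steps: `‖∑ u, θ(b u³)‖² ≤ ∑ w ‖∑ u, θ(3 b (w u² + w² u))‖`, Cauchy-Schwarz over `w`, `‖∑ u, θ(3b(w u² + w² u))‖² ≤ ∑ w' ‖∑ u, θ(6 b w w' u)‖`. -/
def FS3_stmt : Prop := ∀ (A : Type) [CommRing A] [Fintype A] (θ : AddChar A ℂ) (b : A), θ.IsPrimitive →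
  (∀ u, ‖θ u‖ = 1) →
  ‖∑ u : A, θ (b * u ^ 3)‖ ^ 4 ≤ (Fintype.card A : ℝ) ^ 2 *
    (({w : A × A | 6 * b * (w.1 * w.2) = 0}.ncard : ℕ) : ℝ)

open Classical in
/-- the bound for geometric sums of length `≤ H` -/
noncomputable def mH (H : ℕ) (ζ : ℂ) : ℝ := if ζ = 1 then (H : ℝ) else min (H : ℝ) (2 / ‖1 - ζ‖)

/-- the bound for the square of quadratic Weyl sums -/
noncomputable def EW2 (H : ℕ) (ζ : ℂ) : ℝ := H + 2 * ∑ a ∈ Finset.Icc 1 (H - 1), mH H (ζ ^ a)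

/-- the bound for the fourth power of cubic Weyl sums -/
noncomputable def EW3 (H : ℕ) (ζ : ℂ) : ℝ :=
  10 * (H : ℝ) ^ 3 + 16 * H * ∑ a ∈ Finset.Icc 1 (H - 1), ∑ b ∈ Finset.Icc 1 (H - 1), mH H (ζ ^ (a * b))

/-- **WY2** (short/medium). Weyl differencing for `S = ∑ h < H', ee(α_0 h + α_1 h²)`: `‖S‖² ≤ H' + 2 ∑_{0<a<H'} ‖∑_{h < H'-a} z(h+a) conj(z h)‖`, `z(h+a) conj(z h) = const * ee(2 α_1)^(a h) * ee(α_0)^a..`: a geometric sum with ratio `ee(2 α_1)^a` (up to a constant factor), `≤ mH H (ee(2 α_1)^a)`. -/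
def WY2_stmt : Prop := ∀ (α : ℕ → ℝ) (H H' : ℕ), H' ≤ H →
  ‖∑ h ∈ Finset.range H', ee (∑ l ∈ Finset.range 2, α l * (h : ℝ) ^ (l + 1))‖ ^ 2 ≤ EW2 H (ee (2 * α 1))

/-- **WY3** (medium). uses: WY2. Weyl differencing for cubic polynomials: `‖S‖² ≤ H + 2 ∑_{0<a<H} ‖S_a‖`, `S_a` = a sum of length `H' - a` of `ee` of a quadratic polynomial with leading coefficient `3 α_2 a`; `‖S‖⁴ ≤ 2 H² + 8 H ∑ ‖S_a‖²` and WY2: `‖S_a‖² ≤ EW2 H (ee(6 α_2 a))`, `ee(6 α_2 a) = ee(6 α_2)^a`. -/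
def WY3_stmt : Prop := ∀ (α : ℕ → ℝ) (H H' : ℕ), H' ≤ H →
  ‖∑ h ∈ Finset.range H', ee (∑ l ∈ Finset.range 3, α l * (h : ℝ) ^ (l + 1))‖ ^ 4 ≤ EW3 H (ee (6 * α 2))

/-- **DYA** (medium). `‖ζ‖ = 1`. Let `j` be the largest with `2^j ≤ H`, `2^j ‖1 - ζ‖ ≤ 1`. (If `‖1 - ζ‖ > 1`: `mH ≤ 2`.) For such `j`, `N = 2^j`: `‖∑_{h<N} ζ^h - N‖ ≤ ∑ h ‖1 - ζ‖ ≤ N/2`, so `2^(-j) ‖∑‖² ≥ 2^j/4`. If `2^(j+1) > H`: `mH ≤ H ≤ 2^(j+1)`; if `2^(j+1) ‖1-ζ‖ > 1`: `mH ≤ 2/‖1-ζ‖ ≤ 2^(j+2)`. -/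
def DYA_stmt : Prop := ∀ (H : ℕ) (ζ : ℂ), ‖ζ‖ = 1 → 1 ≤ H →
  mH H ζ ≤ 16 * (1 + ∑ j ∈ Finset.range (Nat.log 2 H + 1),
    (2 : ℝ)⁻¹ ^ j * ‖∑ h ∈ Finset.range (2 ^ j), ζ ^ h‖ ^ 2)

open Classical in
/-- **EA2** (medium). uses: DYA, FS2, KR1. `N = Nm m = card (𝓞 K ⧸ m)`. With `ζ_u = θ(-u²)`, for `1 ≤ a < H` and `L = 2^j ≤ H`: `∑_u ‖∑_{h<L} ζ_u^(a h)‖² = ∑_{h,h'<L} ∑_u θ(-a(h-h')u²) ≤ L N + L² max_{1≤b<L} ‖∑_u θ(∓ a b u²)‖` and by FS2, KR1 `‖..‖² ≤ N (2 a b)^n ≤ N (2H²)^n`; as `H^(4(n+1)) ≤ N`: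
`L (2H²)^(n/2) N^(1/2) ≤ 2^n N`. DYA: `∑_u mH H (ζ_u^a) ≤ C N (1 + log H)` (the number of `j` is `≤ 2 (1 + log H)`). Finite type instance: state and use any (`Fintype`/`Finite`); the sum is over `Finset.univ`. -/
def EA2_stmt : Prop := ∀ n : ℕ, 1 ≤ n → ∃ C : ℝ, 1 ≤ C ∧ ∀ (K : Type) [Field K] [NumberField K],
  Module.finrank ℚ K = n → ∀ (m : Ideal (𝓞 K)) [Fintype (𝓞 K ⧸ m)] (θ : AddChar (𝓞 K ⧸ m) ℂ) (H : ℕ), m ≠ ⊥ →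
    θ.IsPrimitive → (∀ u, ‖θ u‖ = 1) → 1 ≤ H → (H : ℝ) ^ (16 * (n + 1)) ≤ Nm m →
    ∑ u : 𝓞 K ⧸ m, EW2 H (θ (-(u ^ 2))) ≤ C * Nm m * H * (1 + Real.log H)

open Classical in
/-- **EA3** (medium). uses: DYA, FS3, KR1, DVG. The same with `ζ_u = θ(2u³)`, `ζ_u^(ab)`: `‖∑_u θ(2 c u³)‖⁴ ≤ N² (dv m).card N (12 c)^n`, `1 ≤ c ≤ H³`, `(dv m).card ≤ C N^(1/4)` (DVG): `‖..‖ ≤ C N^(13/16) (12 H³)^(n/4)`, and `H * (12H³)^(n/4) ≤ C H^(n+1) ≤ C N^(1/16)`. -/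
def EA3_stmt : Prop := ∀ n : ℕ, 1 ≤ n → ∃ C : ℝ, 1 ≤ C ∧ ∀ (K : Type) [Field K] [NumberField K],
  Module.finrank ℚ K = n → ∀ (m : Ideal (𝓞 K)) [Fintype (𝓞 K ⧸ m)] (θ : AddChar (𝓞 K ⧸ m) ℂ) (H : ℕ), m ≠ ⊥ →
    θ.IsPrimitive → (∀ u, ‖θ u‖ = 1) → 1 ≤ H → (H : ℝ) ^ (16 * (n + 1)) ≤ Nm m →
    ∑ u : 𝓞 K ⧸ m, EW3 H (θ (2 * u ^ 3)) ≤ C * Nm m * (H : ℝ) ^ 3 * (1 + Real.log H)

open Classical in
/-- **INN2** (medium/long). uses: GCX, PPH, WY2, LN1, LN2, ABC, PRO. The inner sum. For `x ∈ An b Y k`: `w v ≤ ρ exp(cc) ≤ z w x` with `z = e³ ρ`, `H z ≤ 1/10`: LN1, LN2. The summand is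
`χ((x + hv)) ph t (log N x) ph t (∑_σ log |1 + h z_σ|) WW` (`x + hv ∈ b`, `≠ 0`; compare TB, LV); the factor `ph t (∑_σ ..)` moves by `≤ |t| 2 n z` per step (as in LN2: `|log |1 + (h+1) z_σ| - log |1 + h z_σ|| ≤ 2z`), so the total variation of the weights on `h < H` is `≤ C`.
If `x` is not prime to `f`, no `x + hv` is (a prime containing `f` contains `v^3`), all terms are `0`. Otherwise GCX, PPH (range `H ≥ 3`): `χ((x+hv)) = χ((x)) ee(α_0 h + α_1 h²)`, `‖χ((x))‖ = 1`, and the property of `θ` gives (`j = 0, 1, 2`) `ee(2 α_1) = θ(-x'²)`. WY2 for all `H' ≤ H`, ABC with `M = √EW2`. -/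
def INN2_stmt : Prop := ∀ n : ℕ, 1 ≤ n → ∃ C : ℝ, 1 ≤ C ∧
  ∀ (K : Type) [Field K] [NumberField K], Module.finrank ℚ K = n →
  ∀ (f b : Ideal (𝓞 K)) (χ : Ideal (𝓞 K) → ℂ) (t Y : ℝ) (V : ℝ → ℂ) (k : InfinitePlace K → ℤ) (v : 𝓞 K)
    (ρ : ℝ) (H : ℕ) (θ : AddChar (𝓞 K ⧸ cl f (v ^ 2)) ℂ), HChar f χ → VV V → 0 < Y → v ∈ Bx b Y k ρ →
    v ^ 3 ∈ f → 0 < ρ → 3 ≤ H → (1 + |t|) * H * ρ ≤ 1 / 1000 →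
    (∀ x x' : 𝓞 K, x * x' - 1 ∈ f → (∀ j : ℕ, j ≤ 2 → x + (j : 𝓞 K) * v ≠ 0) →
      (∀ j j' : ℕ, j ≤ 2 → j' ≤ 2 → ∀ φ : K →+* ℝ,
        0 < φ ((x + (j : 𝓞 K) * v : 𝓞 K) : K) * φ ((x + (j' : 𝓞 K) * v : 𝓞 K) : K)) →
      χ (Ideal.span {x + ((2 : ℕ) : 𝓞 K) * v}) * χ (Ideal.span {x}) *
        (starRingEnd ℂ) (χ (Ideal.span {x + ((1 : ℕ) : 𝓞 K) * v})) ^ 2 =
      θ (Ideal.Quotient.mk _ (-(x' ^ 2)))) →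
    ∀ x ∈ An b Y k,
      (Ideal.span {x} ⊔ f ≠ ⊤ →
        ‖∑ h ∈ Finset.range H, FF b (gg χ t Y V) k (x + (h : 𝓞 K) * v)‖ = 0) ∧
      ∀ x' : 𝓞 K, x * x' - 1 ∈ f →
        ‖∑ h ∈ Finset.range H, FF b (gg χ t Y V) k (x + (h : 𝓞 K) * v)‖ ^ 2 ≤
          C * EW2 H (θ (Ideal.Quotient.mk _ (-(x' ^ 2))))

open Classical in
/-- **INN3** (medium/long). uses: GCX, PPH, WY3, LN1, LN2, ABC, PRO. As INN2, with `v^4 ∈ f`, `χ((x+hv)) = χ((x)) ee(α_0 h + α_1 h² + α_2 h³)` and `ee(6 α_2) = θ(2x'³)`; WY3. -/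
def INN3_stmt : Prop := ∀ n : ℕ, 1 ≤ n → ∃ C : ℝ, 1 ≤ C ∧
  ∀ (K : Type) [Field K] [NumberField K], Module.finrank ℚ K = n →
  ∀ (f b : Ideal (𝓞 K)) (χ : Ideal (𝓞 K) → ℂ) (t Y : ℝ) (V : ℝ → ℂ) (k : InfinitePlace K → ℤ) (v : 𝓞 K)
    (ρ : ℝ) (H : ℕ) (θ : AddChar (𝓞 K ⧸ cl f (v ^ 3)) ℂ), HChar f χ → VV V → 0 < Y → v ∈ Bx b Y k ρ →
    v ^ 4 ∈ f → 0 < ρ → 3 ≤ H → (1 + |t|) * H * ρ ≤ 1 / 1000 →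
    (∀ x x' : 𝓞 K, x * x' - 1 ∈ f → (∀ j : ℕ, j ≤ 3 → x + (j : 𝓞 K) * v ≠ 0) →
      (∀ j j' : ℕ, j ≤ 3 → j' ≤ 3 → ∀ φ : K →+* ℝ,
        0 < φ ((x + (j : 𝓞 K) * v : 𝓞 K) : K) * φ ((x + (j' : 𝓞 K) * v : 𝓞 K) : K)) →
      χ (Ideal.span {x + ((3 : ℕ) : 𝓞 K) * v}) * χ (Ideal.span {x + ((1 : ℕ) : 𝓞 K) * v}) ^ 3 *
        (starRingEnd ℂ) (χ (Ideal.span {x + ((2 : ℕ) : 𝓞 K) * v}) ^ 3 * χ (Ideal.span {x})) =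
      θ (Ideal.Quotient.mk _ (2 * x' ^ 3))) →
    ∀ x ∈ An b Y k,
      (Ideal.span {x} ⊔ f ≠ ⊤ →
        ‖∑ h ∈ Finset.range H, FF b (gg χ t Y V) k (x + (h : 𝓞 K) * v)‖ = 0) ∧
      ∀ x' : 𝓞 K, x * x' - 1 ∈ f →
        ‖∑ h ∈ Finset.range H, FF b (gg χ t Y V) k (x + (h : 𝓞 K) * v)‖ ^ 4 ≤
          C * EW3 H (θ (Ideal.Quotient.mk _ (2 * x' ^ 3)))

open Classical in
/-- **FIB** (short/medium). uses: FIN0, CLF. `An b Y k` in one class modulo `m`: for `E ≥ 0` on `𝓞 K ⧸ m`, `f ≤ m`, and every `x ∈ S` prime to `f` with an inverse `x'` modulo `f`: two elements of `S` with the same class of `x'` modulo `m` are congruent modulo `m`, their difference is in `m ⊓ b = m * b`, of size `≤ 2e³`.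
So every class is hit at most `1 + nB (m * b) Y k (2e³)` times. -/
def FIB_stmt : Prop := ∀ (K : Type) [Field K] [NumberField K] (f m b : Ideal (𝓞 K)) [Fintype (𝓞 K ⧸ m)] (Y : ℝ)
  (k : InfinitePlace K → ℤ) (S : Finset (𝓞 K)) (i : 𝓞 K → 𝓞 K) (E : 𝓞 K ⧸ m → ℝ), m ≠ ⊥ → f ≤ m → b ⊔ m = ⊤ →
  (∀ x ∈ S, x ∈ An b Y k) → (∀ x ∈ S, x * i x - 1 ∈ f) → (∀ u, 0 ≤ E u) →
  ∑ x ∈ S, E (Ideal.Quotient.mk m (i x)) ≤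
    (1 + nB (m * b) Y k (2 * Real.exp 3)) * ∑ u : 𝓞 K ⧸ m, E u

/-- **SV2** (medium/long). uses: AD2, INN2, EA2, FIB, CLF, AMG, AVG, PRO, MON, FIN0. `Y = X N(b)`, `m = cl f (v²)`, `θ` from AD2. Shifts `h v`, `h < H` (sizes `≤ Hρ ≤ 1/1000`): AVG: `H T ≤ ∑ x ∈ An, ‖inner x‖`. By INN2 the `x` not prime to `f` contribute `0`; for the others choose an inverse `i x` modulo `f`
(`Ideal.mem_span_singleton_sup` / `Ideal.isUnit_quotient` ..). Cauchy-Schwarz over the `x ∈ An` prime to `f` (`#An ≤ nB b Y k e³`), INN2, FIB (`E = EW2 H (θ(-u²)) ≥ 0`), EA2 (`Fintype (𝓞 K ⧸ m)` from `m ≠ ⊥`, CLF):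
`(H T)² ≤ C nB b Y k e³ (1 + nB (m b) Y k (2e³)) Nm m H (1 + log H)`; AMG with `r = 1`, `lam⁻¹ ≤ lam⁻¹ ^ 3`. -/
def SV2_stmt : Prop := ∀ n : ℕ, 1 ≤ n → ∃ C : ℝ, 1 ≤ C ∧
  ∀ (K : Type) [Field K] [NumberField K], Module.finrank ℚ K = n →
  ∀ (f b : Ideal (𝓞 K)) (χ : Ideal (𝓞 K) → ℂ) (t X : ℝ) (V : ℝ → ℂ) (k : InfinitePlace K → ℤ) (v : 𝓞 K)
    (ρ lam : ℝ) (H : ℕ), HChar f χ → b ≠ ⊥ → b ⊔ f = ⊤ → VV V → 0 < X → v ∈ Bx b (X * Nm b) k ρ →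
    v ^ 3 ∈ f → 0 < ρ → 3 ≤ H → (1 + |t|) * H * ρ ≤ 1 / 1000 → (H : ℝ) ^ (16 * (n + 1)) ≤ Nm (cl f (v ^ 2)) →
    0 < lam → lam ≤ 1 →
    ‖TT b (gg χ t (X * Nm b) V) k‖ ≤ C * (lam * nB b (X * Nm b) k C +
      lam⁻¹ ^ 3 * (Nm (cl f (v ^ 2)) * ((1 + Real.log H) / H)) *
        (1 + nB (cl f (v ^ 2) * b) (X * Nm b) k C))

/-- **SV3** (medium/long). uses: AD3, INN3, EA3, FIB, CLF, AMG, AVG, PRO, MON, FIN0. As SV2, with `v^4 ∈ f`, `m = cl f (v³)`, Hölder / Cauchy-Schwarz twice over `x` (`(∑ a_x)⁴ ≤ #³ ∑ a_x⁴`, `inner_le_Lp..` or `Finset.inner_mul_le_norm_mul_norm`, `pow_sum_le`..): `(H T)⁴ ≤ C B³ (1 + ..) Nm m H³ (1 + log H)`; AMG with `r = 2`. -/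
def SV3_stmt : Prop := ∀ n : ℕ, 1 ≤ n → ∃ C : ℝ, 1 ≤ C ∧
  ∀ (K : Type) [Field K] [NumberField K], Module.finrank ℚ K = n →
  ∀ (f b : Ideal (𝓞 K)) (χ : Ideal (𝓞 K) → ℂ) (t X : ℝ) (V : ℝ → ℂ) (k : InfinitePlace K → ℤ) (v : 𝓞 K)
    (ρ lam : ℝ) (H : ℕ), HChar f χ → b ≠ ⊥ → b ⊔ f = ⊤ → VV V → 0 < X → v ∈ Bx b (X * Nm b) k ρ →
    v ^ 4 ∈ f → 0 < ρ → 3 ≤ H → (1 + |t|) * H * ρ ≤ 1 / 1000 → (H : ℝ) ^ (16 * (n + 1)) ≤ Nm (cl f (v ^ 3)) →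
    0 < lam → lam ≤ 1 →
    ‖TT b (gg χ t (X * Nm b) V) k‖ ≤ C * (lam * nB b (X * Nm b) k C +
      lam⁻¹ ^ 3 * (Nm (cl f (v ^ 3)) * ((1 + Real.log H) / H)) *
        (1 + nB (cl f (v ^ 3) * b) (X * Nm b) k C))

open Classical in
/-- **SB** (medium/long). uses: SV2 (`i = 2`), SV3 (`i = 3`), CLF, COV, MNK, TRV, PRO, MON, FIN0. `Q = QQ f t`, `ρ = Q^(-c/(2n))`, `H = ⌊Q^h⌋₊`, `h = c/(64 n (n+1))`, `c' = c/(8n)`. `(1+|t|) H ρ ≤ Q^(c/8n + c/64n - c/2n) ≤ 1/1000` for `Q` large. Case (i): there is `v ∈ Bx (q * b) Y k ρ` with `Q^(c/2) ≤ Nm (cl f (v^i))`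
(`≥ H^(16(n+1))`): `v^(i+1) ∈ f`, `s ≤ cl f (v^i)` (as `v^i s ⊆ q^i s ⊆ f`), so `Nm (cl f (v^i)) ≤ Nm s ≤ Q^(1/2-c)`; SV, `(1 + log H)/H ≤ C Q^(-h/2)`. Case (ii): every `v ∈ Bx (q * b) Y k ρ` is in `Bx (e * b) Y k ρ` for `e = span {v} ⊔ f`, a divisor of `f`, and by CLF `Nm e ^ i ≥ Nm (span {v^i} ⊔ f) = Nm f / Nm (cl f (v^i)) ≥ Nm f Q^(-c/2)`,
so `Nm e ≥ Nm q Q^c Q^(-c/(2i)) ≥ Nm q Q^(c/2)`. TRV, COV with `g = q` (`b ⊔ q = ⊤`), `1 ≤ nB (q * b) Y k ρ` by MNK (`C Nm q √D ≤ ρ^n X = Q^(-c/2) X`). -/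
def SB_stmt : Prop := ∀ (n i : ℕ) (c : ℝ), 1 ≤ n → (i = 2 ∨ i = 3) → 0 < c → c ≤ 1 / 8 → ∃ C : ℝ, 1 ≤ C ∧
  ∀ (K : Type) [Field K] [NumberField K], Module.finrank ℚ K = n →
  ∀ (f q s b : Ideal (𝓞 K)) (χ : Ideal (𝓞 K) → ℂ) (t X lam : ℝ) (V : ℝ → ℂ) (k : InfinitePlace K → ℤ),
    HChar f χ → f ≤ q → q ^ (i + 1) ≤ f → q ^ i * s ≤ f → b ≠ ⊥ → b ⊔ f = ⊤ → VV V → 0 < X → Rel k →
    0 < lam → lam ≤ 1 → C ≤ QQ f t → 1 + |t| ≤ QQ f t ^ (c / (8 * n)) → Nm s ≤ QQ f t ^ (1 / 2 - c) →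
    Nm q ^ i * QQ f t ^ (i * c) ≤ Nm f → C * Nm q * (Dc K) ^ (1 / 2 : ℝ) * QQ f t ^ (c / 2) ≤ X →
    ‖TT b (gg χ t (X * Nm b) V) k‖ ≤ C * (lam * nB b (X * Nm b) k C +
      ∑ m ∈ (dv f).filter (fun m => QQ f t ^ (c / 2) ≤ Nm m ∧ Nm m ≤ QQ f t ^ (1 / 2 - c)),
        lam⁻¹ ^ 3 * (Nm m * QQ f t ^ (-(c / (128 * n * (n + 1))))) *
          (1 + nB (m * b) (X * Nm b) k C) +
      Nm q * QQ f t ^ (c / 2) *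
        ∑ e ∈ (dv f).filter (fun e => Nm q * QQ f t ^ (c / 2) ≤ Nm e),
          nB (e * b) (X * Nm b) k (QQ f t ^ (-(c / (2 * n)))))

/-- **PS** (medium/long). uses: SB, TOT, TRI, CLS, DVG, MNK, PRO, FIN0; compare PL (Pool/Agent/helper13/UN/PL.lean). `lam = Q^(-3d)`. Terms: `Q^(-3d) X^(1+e)`; `Q^(9d) Nm m Q^(-h/2) (c √D)^(1+e) ≤ Q^(9d + 1/2 - c + d - 1/2) X^(1+e)`; `Q^(9d) Nm m Q^(-h/2) (C X/Nm m)^(1+e) ≤ C Q^(9d - h/2) X^(1+e)`, `h/2 = c/(128 n (n+1))`;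
`Nm q Q^(c/2) (Q^(-c/2) X/Nm e)^(1+e') ≤ X^(1+e') Nm q/Nm e ≤ X^(1+e') Q^(-c/2)` (`Nm e ≥ 1`, `Q^(-c/2) ≤ 1`). Number of divisors `≤ C Q^(e)`. `d₀ = c/(128 n (n+1) 20)`. -/
def PS_stmt : Prop := ∀ (n i : ℕ) (c : ℝ), 1 ≤ n → (i = 2 ∨ i = 3) → 0 < c → c ≤ 1 / 8 → ∃ d₀ : ℝ, 0 < d₀ ∧
  ∀ d : ℝ, 0 < d → d ≤ d₀ → ∀ ε : ℝ, 0 < ε → ∃ C : ℝ, 1 ≤ C ∧
  ∀ (K : Type) [Field K] [NumberField K], Module.finrank ℚ K = n →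
  ∀ (f q s : Ideal (𝓞 K)) (χ : Ideal (𝓞 K) → ℂ) (t X : ℝ) (V : ℝ → ℂ), HChar f χ → f ≤ q → q ^ (i + 1) ≤ f →
    q ^ i * s ≤ f → VV V → 1 + |t| ≤ QQ f t ^ (c / (8 * n)) → Nm s ≤ QQ f t ^ (1 / 2 - c) →
    Nm q ≤ QQ f t ^ (1 / 2 - c) → Nm q ^ i * QQ f t ^ (i * c) ≤ Nm f →
    (Dc K) ^ (1 / 2 : ℝ) * QQ f t ^ (1 / 2 - d) ≤ X →
    ‖SS χ t X V‖ ≤ C * X ^ (1 + ε) * QQ f t ^ (-d)

/-- **DEC** (medium/long). Decomposition by the exponents `k_P` of `f = ∏ P^{k_P}`. `a` = the part `k ≤ 2`, `f'` = the part `k ≥ 3`, `r` = the part `k ≥ 3, k ≠ 4`, `q' = ∏_{k ≥ 3} P^⌈k/3⌉`, `q = ∏ P^⌈k/3⌉`, `s = ∏ P^{(k - 2⌈k/3⌉)⁺}`, `q₄ = ∏ P^⌈k/4⌉`, `s₄ = ∏ P^{(k - 3⌈k/4⌉)⁺}`. All inequalities hold prime by prime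
(exponents of `Nm P`): `2⌈k/3⌉ ≤ k` (`k ≥ 3`); `3 (k - 2⌈k/3⌉)⁺ ≤ k`; `14⌈k/3⌉ + k ≤ 7k` for `k ≥ 3, k ≠ 4` (check `k = 3, 5, 6` by hand, `k ≥ 7`: `14 (k+2)/3 ≤ 6k`), `14⌈4/3⌉ = 28 = 7·4`, `14 ≤ 14k` for `k = 1, 2`; `4⌈k/4⌉ ≤ 4k + k` for `k ≠ 4`, `4 ≤ 4` for `k = 4`; `4 (k - 3⌈k/4⌉)⁺ ≤ k`.
(`Ideal.finprod_heightOneSpectrum_factorization`, or `UniqueFactorizationMonoid` / `normalizedFactors`, `Multiset.prod`; or an induction on coprime products of prime powers, `UniqueFactorizationMonoid.induction_on_coprime`: all conditions are multiplicative in coprime `f`.) -/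
def DEC_stmt : Prop := ∀ (K : Type) [Field K] [NumberField K] (f : Ideal (𝓞 K)), f ≠ ⊥ →
  ∃ a f' r q' q s q₄ s₄ : Ideal (𝓞 K),
    f = f' * a ∧ f' ⊔ a = ⊤ ∧ (∀ P : Ideal (𝓞 K), P.IsPrime → ¬ P ^ 3 ∣ a) ∧
    f' ≤ q' ∧ q' ^ 3 ≤ f' ∧ Nm q' ^ 2 ≤ Nm f' ∧
    r ≠ ⊥ ∧ f ≤ q ∧ q ^ 3 ≤ f ∧ q ^ 2 * s ≤ f ∧ Nm s ^ 3 ≤ Nm f ∧ Nm q ^ 14 * Nm r ≤ (Nm f * Nm a) ^ 7 ∧
    f ≤ q₄ ∧ q₄ ^ 4 ≤ f ∧ q₄ ^ 3 * s₄ ≤ f ∧ Nm s₄ ^ 4 ≤ Nm f ∧ Nm q₄ ^ 4 ≤ (Nm a * Nm r) ^ 4 * Nm f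

/-- **PGF** (medium). `theorem PGF (hPL2 : PL2_stmt) (hPT2 : PT2_stmt) (hPS : PS_stmt) (hDEC : DEC_stmt) (hPRO : PRO_stmt) : PG_stmt`. `Q = QQ f t ≥ 1`, `c₂ = 1/2240`, `c₃ = 1/80`, `c' = min (c₂/(8n)) (c₃/(8n))`, `κ₆ = 1/80`, `κ₁ = min (κ₆/14) (c'/2)`; `d` = the smallest of the `d₀` of PL2 (`κ = κ₁/2`), PT2 (`κ = c'/4`),
PS (`i = 2, c₂`), PS (`i = 3, c₃`) and `1/8`. A: `Nm a ≥ Q^κ₁`: `Nm q' ≤ Nm f'^(1/2) ≤ (Q^(1-κ₁))^(1/2)`: PL2. Now `Nm a < Q^κ₁`. B: `1 + |t| ≥ Q^c'`: `Nm q^14 ≤ (Nm f Nm a)^7`, so `Nm q ≤ (Nm f Nm a)^(1/2) ≤ Q^(κ₁/2) (Q/(1+|t|)^n)^(1/2) ≤ Q^(1/2 - c'/4)`: PT2. Now `1 + |t| < Q^c'`.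
C: `Nm r ≥ Q^κ₆`: `Nm q ≤ (Nm f Nm a)^(1/2) Nm r^(-1/14) ≤ Nm f^(1/2) Q^(κ₁/2 - κ₆/14) ≤ Nm f^(1/2) Q^(-c₂)` (`κ₆/14 - κ₁/2 ≥ κ₆/28 = c₂`), `Nm s ≤ Q^(1/3)`: PS `i = 2`. D: `Nm r < Q^κ₆`: `Nm f = Q/(1+|t|)^n ≥ Q^(1-nc')`, `n c' ≤ 1/640`; `Nm q₄ ≤ Q^(κ₁+κ₆) Nm f^(1/4)`; `Nm q₄^3 Q^(3c₃) ≤ Nm f` because
`Q^(3(κ₁+κ₆+c₃)) ≤ Q^(9/80) ≤ Nm f^(1/4)` (`(1 - 1/640)/4 > 9/80`); `Nm s₄ ≤ Q^(1/4)`: PS `i = 3`. -/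
theorem PGF_doc : True := trivial

end Pool.Agent.UN
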