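import Pool.Agent.helper13.UN.Defs

/-!
# Project UN (MP_cf4097_nt), spec of the number field part

RULES. Row `XXX`: file `Pool/Agent/<seat>/UN/XXX.lean`, `import Pool.Agent.helper13.UN.Spec` (plus library files named in the
docstring), `set_option autoImplicit false`, `namespace Pool.Agent.UN`, `theorem XXX : XXX_stmt` (any other `_stmt` of `Defs`,
`Spec` may be added as a hypothesis, no circles). Auxiliary lemmas are prefixed `XXX_`. No straight double quotes, no convert / congr!.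
Land, note DONE + path, one line to helper13. Paper proof: /team-store/H8_MP_cf4097_nt_helper13.md, ..._v2.md.
Blocks T (CORE_stmt: helper1), M (AST_stmt: helper82), F (AFE_stmt, U_stmt from P_stmt: helper87) have their own specs.
`Real.log 0 = 0`. `Nm I` is the norm as a real number, `w x` the absolute value at the infinite place `w`, `n = finrank ℚ K`.
-/

set_option autoImplicit false

open NumberField Complex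

namespace Pool.Agent.UN

section defs

variable {K : Type} [Field K] [NumberField K]

/-- the relevant indices: `|∑ mult w * k w| ≤ n` -/
def Rel (k : InfinitePlace K → ℤ) : Prop :=
  |∑ w : InfinitePlace K, (w.mult : ℤ) * k w| ≤ (Module.finrank ℚ K : ℤ)

variable (K) in
open Classical in
/-- the relevant indices with `|k w| ≤ R` -/
noncomputable def KK (R : ℕ) : Finset (InfinitePlace K → ℤ) :=
  (Fintype.piFinset fun _ => Finset.Icc (-(R : ℤ)) R).filter fun k => Rel k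

variable (K) in
/-- number of units with all logarithms at most `R` -/
noncomputable def uu (R : ℕ) : ℝ :=
  ({u : (𝓞 K)ˣ | ∀ w : InfinitePlace K, |Real.log (w ((u : 𝓞 K) : K))| ≤ R}.ncard : ℝ)

variable (K) in
/-- the average of `f` over the relevant indices (with respect to the number of units) is at most `A` -/
def AB (f : (InfinitePlace K → ℤ) → ℝ) (A : ℝ) : Prop :=
  ∃ C : ℕ, ∀ R : ℕ, ∑ k ∈ KK K R, f k ≤ A * uu K (R + C)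

/-- the partition of unity in the space of the logarithms -/
noncomputable def Psi (k : InfinitePlace K → ℤ) (x : 𝓞 K) : ℝ :=
  ∏ w : InfinitePlace K, tent (Real.log (w (x : K)) -
    Real.log (Nm (Ideal.span {x})) / Module.finrank ℚ K - k w)

/-- centre of the box `k` -/
noncomputable def cc (Y : ℝ) (k : InfinitePlace K → ℤ) (w : InfinitePlace K) : ℝ :=
  Real.log Y / Module.finrank ℚ K + k w

/-- nonzero elements of `J` in the box of radius `s` -/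
def Bx (J : Ideal (𝓞 K)) (Y : ℝ) (k : InfinitePlace K → ℤ) (s : ℝ) : Set (𝓞 K) :=
  {x | x ∈ J ∧ x ≠ 0 ∧ ∀ w : InfinitePlace K, w (x : K) ≤ s * Real.exp (cc Y k w)}

/-- their number -/
noncomputable def nB (J : Ideal (𝓞 K)) (Y : ℝ) (k : InfinitePlace K → ℤ) (s : ℝ) : ℝ :=
  ((Bx J Y k s).ncard : ℝ)

/-- the elements of `b` in the annulus of the box `k` -/
def An (b : Ideal (𝓞 K)) (Y : ℝ) (k : InfinitePlace K → ℤ) : Set (𝓞 K) :=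
  {x | x ∈ b ∧ x ≠ 0 ∧ ∀ w : InfinitePlace K, Real.exp (-3) * Real.exp (cc Y k w) ≤ w (x : K) ∧
    w (x : K) ≤ Real.exp 3 * Real.exp (cc Y k w)}

/-- the nonzero principal ideals contained in `J` -/
def Pr (J : Ideal (𝓞 K)) : Set (Ideal (𝓞 K)) := {I | I ≠ ⊥ ∧ I ≤ J ∧ ∃ x : 𝓞 K, I = Ideal.span {x}}

/-- number of nonzero principal ideals `≤ J` of norm `≤ z` -/
noncomputable def nP (J : Ideal (𝓞 K)) (z : ℝ) : ℝ := ({I | I ∈ Pr J ∧ Nm I ≤ z}.ncard : ℝ)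

variable (K) in
/-- number of nonzero ideals of norm `≤ z` -/
noncomputable def nI (z : ℝ) : ℝ := ({I : Ideal (𝓞 K) | I ≠ ⊥ ∧ Nm I ≤ z}.ncard : ℝ)

/-- the summand as a function of the principal ideal `I = (x)`; `Y = X N(b)` -/
noncomputable def gg (χ : Ideal (𝓞 K) → ℂ) (t Y : ℝ) (V : ℝ → ℂ) (I : Ideal (𝓞 K)) : ℂ :=
  χ I * ph t (Real.log (Nm I)) * V (Real.log (Nm I) - Real.log Y)

open Classical in
/-- the summand of `TT` -/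
noncomputable def FF (b : Ideal (𝓞 K)) (g : Ideal (𝓞 K) → ℂ) (k : InfinitePlace K → ℤ) (x : 𝓞 K) : ℂ :=
  if x ∈ b ∧ x ≠ 0 then g (Ideal.span {x}) * (Psi k x : ℂ) else 0

/-- the piece `T_k` of the sum over a class -/
noncomputable def TT (b : Ideal (𝓞 K)) (g : Ideal (𝓞 K) → ℂ) (k : InfinitePlace K → ℤ) : ℂ :=
  ∑ᶠ x : 𝓞 K, FF b g k x

/-- `b c` is an integral ideal in the class `c` -/
def Rep (b : ClassGroup (𝓞 K) → Ideal (𝓞 K)) : Prop :=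
  ∀ c, ∃ h : b c ≠ ⊥, ClassGroup.mk0 ⟨b c, mem_nonZeroDivisors_iff_ne_zero.2 h⟩ = c

open Classical in
/-- the finite set of the divisors of a nonzero ideal -/
noncomputable def dv (f : Ideal (𝓞 K)) : Finset (Ideal (𝓞 K)) :=
  if h : {g : Ideal (𝓞 K) | g ∣ f}.Finite then h.toFinset else ∅

/-- the weight along the line `x + h v` -/
noncomputable def WW (V : ℝ → ℂ) (Y : ℝ) (k : InfinitePlace K → ℤ) (x v : 𝓞 K) (h : ℕ) : ℂ :=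
  V (Real.log (Nm (Ideal.span {x + (h : 𝓞 K) * v})) - Real.log Y) * (Psi k (x + (h : 𝓞 K) * v) : ℂ)

end defs

/-! ## Part 1: basic facts -/

/-- **PRO** (short). Mathlib: `InfinitePlace.sum_mult_eq`, `InfinitePlace.prod_eq_abs_norm`, `Ideal.absNorm_span_singleton`
(`absNorm (span {x}) = natAbs (norm ℤ x)`), `NumberField.discr_ne_zero`, `Ideal.absNorm` multiplicative, `Ideal.absNorm_dvd_absNorm_of_le`. -/
def PRO_stmt : Prop := ∀ (K : Type) [Field K] [NumberField K], 1 ≤ Module.finrank ℚ K ∧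
  (∑ w : InfinitePlace K, w.mult = Module.finrank ℚ K) ∧ 1 ≤ Dc K ∧
  (∀ x : 𝓞 K, x ≠ 0 → 1 ≤ Nm (Ideal.span {x}) ∧ (∀ w : InfinitePlace K, 0 < w (x : K)) ∧
    ∑ w : InfinitePlace K, (w.mult : ℝ) * Real.log (w (x : K)) = Real.log (Nm (Ideal.span {x}))) ∧
  (∀ a b : Ideal (𝓞 K), Nm (a * b) = Nm a * Nm b) ∧ (∀ a : Ideal (𝓞 K), a ≠ ⊥ → 1 ≤ Nm a) ∧
  (∀ a b : Ideal (𝓞 K), a ≤ b → a ≠ ⊥ → Nm b ≤ Nm a)

/-- **FIN0** (short/medium). Finiteness. `NumberField.Embeddings.finite_of_norm_le` (bounded integral elements; for the units take also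
`u⁻¹`-free: `w u ≤ exp R` for all `w`), `Ideal.finite_setOf_absNorm_le`. -/
def FIN0_stmt : Prop := ∀ (K : Type) [Field K] [NumberField K],
  (∀ R : ℕ, {u : (𝓞 K)ˣ | ∀ w : InfinitePlace K, |Real.log (w ((u : 𝓞 K) : K))| ≤ R}.Finite) ∧
  (∀ (J : Ideal (𝓞 K)) (Y : ℝ) (k : InfinitePlace K → ℤ) (s : ℝ), (Bx J Y k s).Finite) ∧
  (∀ z : ℝ, {I : Ideal (𝓞 K) | I ≠ ⊥ ∧ Nm I ≤ z}.Finite)

/-- **MON** (short). Monotonicity of the counting functions. uses: FIN0. -/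
def MON_stmt : Prop := ∀ (K : Type) [Field K] [NumberField K],
  (∀ R R' : ℕ, R ≤ R' → uu K R ≤ uu K R') ∧ (∀ R : ℕ, 1 ≤ uu K R) ∧
  (∀ (J J' : Ideal (𝓞 K)) (Y : ℝ) (k : InfinitePlace K → ℤ) (s s' : ℝ), J ≤ J' → s ≤ s' →
    nB J Y k s ≤ nB J' Y k s') ∧
  (∀ z z' : ℝ, z ≤ z' → nI K z ≤ nI K z') ∧ (∀ z : ℝ, z < 1 → nI K z = 0)

/-- **TNT** (medium). The partition of unity. uses: PRO. `∑_{m ∈ ℤ} tent(s - m) = 1` (two terms), product over the places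
(`Finset.prod_univ_sum` over `Fintype.piFinset`); if `Psi k x ≠ 0` then `|log (w x) - log Nm / n - k w| < 1` for all `w`, and
`∑ mult w (log (w x) - log Nm / n) = 0`, so `|∑ mult w * k w| < n`. -/
def TNT_stmt : Prop := ∀ (K : Type) [Field K] [NumberField K] (x : 𝓞 K), x ≠ 0 →
  (∀ k : InfinitePlace K → ℤ, 0 ≤ Psi k x ∧ Psi k x ≤ 1) ∧
  (∀ k : InfinitePlace K → ℤ, Psi k x ≠ 0 → Rel k ∧ ∀ w : InfinitePlace K,
    |Real.log (w (x : K)) - Real.log (Nm (Ideal.span {x})) / Module.finrank ℚ K - k w| < 1) ∧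
  (∀ S : Finset (InfinitePlace K → ℤ), ∑ k ∈ S, Psi k x ≤ 1) ∧
  (∀ R : ℕ, (∀ w : InfinitePlace K, |Real.log (w (x : K)) -
    Real.log (Nm (Ideal.span {x})) / Module.finrank ℚ K| + 1 ≤ R) → ∑ k ∈ KK K R, Psi k x = 1)

/-- **GRO** (medium). Growth of the units. uses: FIN0, MON. `u ↦ (⌊log (w u)⌋)_w` maps the units of `uu K R` into a set of `(2R+1)^m` elements (`m` places), and
every fibre has at most `uu K 1` elements (divide by one of them: the logarithms are in `[-1, 1]`). So `uu K R ≤ (2R+1)^m uu K 1`; if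
`uu K (R+C) > (1+η) uu K R` for all `R ≥ R₀` then `uu K (R₀ + jC) ≥ (1+η)^j`, a contradiction for large `j`. (`C = 0` trivial.) -/
def GRO_stmt : Prop := ∀ (K : Type) [Field K] [NumberField K] (C : ℕ) (η : ℝ), 0 < η → ∀ R₀ : ℕ,
  ∃ R : ℕ, R₀ ≤ R ∧ uu K (R + C) ≤ (1 + η) * uu K R

/-- **ABO** (short). Operations with `AB`. uses: MON. -/
def ABO_stmt : Prop := ∀ (K : Type) [Field K] [NumberField K],
  (∀ (f g : (InfinitePlace K → ℤ) → ℝ) (A B : ℝ), 0 ≤ A → 0 ≤ B → AB K f A → AB K g B →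
    AB K (fun k => f k + g k) (A + B)) ∧
  (∀ (f : (InfinitePlace K → ℤ) → ℝ) (A c : ℝ), 0 ≤ c → AB K f A → AB K (fun k => c * f k) (c * A)) ∧
  (∀ (f g : (InfinitePlace K → ℤ) → ℝ) (A : ℝ), (∀ k, Rel k → f k ≤ g k) → AB K g A → AB K f A) ∧
  (∀ (ι : Type) (S : Finset ι) (f : ι → (InfinitePlace K → ℤ) → ℝ) (A : ι → ℝ), (∀ i ∈ S, 0 ≤ A i) →
    (∀ i ∈ S, AB K (f i) (A i)) → AB K (fun k => ∑ i ∈ S, f i k) (∑ i ∈ S, A i))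

/-! ## Part 2: unfolding and averages -/

/-- **A1** (medium/long). Unfolding. uses: PRO, FIN0, MON, TNT, GRO. The set `Pr b ∩ {g ≠ 0}` is finite; choose a generator `x I` of each of its elements and `C'` with
`|log (w (x I)) - log Nm / n| ≤ C'` and `|log (w (x I))| ≤ C'` for all of them. Every `x ≠ 0` in `b` with `g (span {x}) ≠ 0` is `u x I` for exactly one unit `u` and one `I`.
So for `R` and `R' = R + C' + 1`: `uu R * ∑ g I = ∑ I, ∑ u ∈ U(R), ∑ k ∈ KK R', g I Psi k (u x I)`, and for `k ∈ KK R'` all `u` with `Psi k (u x I) ≠ 0` are in `U(R + 2C' + 2)`; hence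
`‖uu R * ∑ g I - ∑ k ∈ KK R', TT b g k‖ ≤ (∑ ‖g I‖) (uu (R + 2C' + 2) - uu R)`. With `AB` and `GRO` (`η → 0`): `‖∑ g I‖ ≤ A (1 + η) + η ∑ ‖g I‖`. -/
def A1_stmt : Prop := ∀ (K : Type) [Field K] [NumberField K] (b : Ideal (𝓞 K)) (g : Ideal (𝓞 K) → ℂ) (z A : ℝ),
  (∀ I, g I ≠ 0 → Nm I ≤ z) → 0 ≤ A → AB K (fun k => ‖TT b g k‖) A → ‖∑ᶠ I ∈ Pr b, g I‖ ≤ A

/-- **A2** (medium/long). The average number of elements of an ideal in the box. uses: PRO, FIN0, MON. Count the pairs `(k, x)`, `k ∈ KK R`, `x ∈ Bx J Y k s`. Put `h w = cc Y k w + log s - log (w x) ≥ 0`. As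
`∑ mult w * k w ≤ n` and `∑ mult w * log (w x) = log Nm(x)`: `∑ mult w * h w ≤ log ((e s)^n Y) - log Nm(x) ≤ ℓ`, `ℓ = log ((e s)^n Y / Nm J)` (`Nm(x) ≥ Nm J`). So `I = span {x}` is one of the
`nP J ((e s)^n Y)` ideals (finitely many; fix generators `x I`, `x = u x I`), `0 ≤ h w ≤ ℓ`, so that for given `x` every `k w` is in an interval of length `≤ ℓ`: at most `(1 + ℓ)^n` values of `k` (number of places `≤ n`).
`|log (w u)| ≤ R + C'` because `log (w x) = cc Y k w + log s - h w`. (If `ℓ < 0` there is no pair.) -/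
def A2_stmt : Prop := ∀ (K : Type) [Field K] [NumberField K] (J : Ideal (𝓞 K)) (Y s : ℝ), J ≠ ⊥ → 0 < Y → 0 < s →
  AB K (fun k => nB J Y k s) (nP J ((Real.exp 1 * s) ^ Module.finrank ℚ K * Y) *
    (1 + |Real.log ((Real.exp 1 * s) ^ Module.finrank ℚ K * Y / Nm J)|) ^ Module.finrank ℚ K)

/-- **CLS** (short/medium). Representatives prime to `f`. For a class `c` take an integral ideal `I` in the class `c⁻¹` (`ClassGroup.mk0_surjective`);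
`IsDedekindDomain.exists_sup_span_eq` for `I * f ≤ I`: `I * f ⊔ span {a} = I`; `span {a} = I * J` (`Ideal.dvd_iff_le`), so `f ⊔ J = ⊤` (cancel `I`), and `J` has class `c`. -/
def CLS_stmt : Prop := ∀ (K : Type) [Field K] [NumberField K] (f : Ideal (𝓞 K)), f ≠ ⊥ →
  ∃ b : ClassGroup (𝓞 K) → Ideal (𝓞 K), Rep b ∧ ∀ c, b c ⊔ f = ⊤

/-- **SUM** (medium). Splitting over the classes. uses: PRO, FIN0. The nonzero ideals `a` are in bijection with the pairs `(c, I)`, `I ∈ Pr (b c)`: `I = b c * a`, `c` = inverse of the class of `a`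
(`ClassGroup.mk0_eq_one_iff`). `gg χ t (X N(b)) V (b * a) = χ(b) ph t (log N(b)) * (χ(a) ph t (log N(a)) V(log N(a) - log X))`, and the factor has modulus `1`. (The term `a = ⊥` of `SS` is `0`: `HChar.bot`. All sums are finite: `VV.supp`.) -/
def SUM_stmt : Prop := ∀ (K : Type) [Field K] [NumberField K] (f : Ideal (𝓞 K)) (χ : Ideal (𝓞 K) → ℂ)
  (b : ClassGroup (𝓞 K) → Ideal (𝓞 K)) (t X : ℝ) (V : ℝ → ℂ), HChar f χ → Rep b → (∀ c, b c ⊔ f = ⊤) →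
  0 < X → VV V → ‖SS χ t X V‖ ≤ ∑ c, ‖∑ᶠ I ∈ Pr (b c), gg χ t (X * Nm (b c)) V I‖

/-- **SPL** (medium). uses: PRO, FIN0. `I ∈ Pr (m * b c)` of norm `≤ z N(m b c)` ↦ `I = m * b c * a`, `N(a) ≤ z`: injective in `(c, I)` because the class of `a` is inverse to that of `m * b c`. -/
def SPL_stmt : Prop := ∀ (K : Type) [Field K] [NumberField K] (b : ClassGroup (𝓞 K) → Ideal (𝓞 K))
  (m : Ideal (𝓞 K)) (z : ℝ), Rep b → m ≠ ⊥ → ∑ c, nP (m * b c) (z * Nm (m * b c)) ≤ nI K z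

/-- **IDM** (medium). Number of ideals of norm `m`. Such an ideal divides `span {m}` (`Ideal.absNorm_mem`). The number of divisors of an ideal is submultiplicative, and for a prime number `p` the ideal `(p)^a` is a product of
at most `n` (with multiplicity, norms `≥ p`, product `p^n`) prime powers `P^a`, so has at most `(a+1)^n` divisors. -/
def IDM_stmt : Prop := ∀ (K : Type) [Field K] [NumberField K] (m : ℕ), 1 ≤ m →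
  ({I : Ideal (𝓞 K) | Ideal.absNorm I = m}.ncard : ℝ) ≤ (m.divisors.card : ℝ) ^ Module.finrank ℚ K

/-- **IDN** (short/medium). Number of ideals of norm at most `z`, uniformly in `K`. uses: IDM, FIN0; `Pool.Agent.helper59.DM.DV` (`divisor_bound`: number of divisors `≤ C_ε m^ε`). -/
def IDN_stmt : Prop := ∀ (n : ℕ), 1 ≤ n → ∀ ε : ℝ, 0 < ε → ∃ C : ℝ, 1 ≤ C ∧
  ∀ (K : Type) [Field K] [NumberField K], Module.finrank ℚ K = n → ∀ z : ℝ, 0 < z →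
    ({I : Ideal (𝓞 K) | I ≠ ⊥ ∧ Nm I ≤ z}.ncard : ℝ) ≤ C * z ^ (1 + ε)

/-- **TOT** (medium). Everything together. uses: A1, A2, ABO, SUM, SPL, IDN, MON, PRO, FIN0. For every class `c`: A1 with `g = gg χ t (X N(b c)) V` (`g I ≠ 0` implies `log N(I) ≤ log (X N(b c)) + 1`), ABO, A2 with `J = m i * b c`, `Y = X N(b c)`:
the class sum is `≤ ∑ i, a i * nP (m i * b c) ((e s)^n X N(b c)) (1 + |log z i|)^n`, `z i = (e s i)^n X / N(m i)`; sum over `c` with SPL: `≤ ∑ i, a i * nI K (z i) (1 + |log z i|)^n`, and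
`nI K z (1 + |log z|)^n ≤ C z^(1+ε)` (IDN with `ε/2` for `z ≥ 1`; `= 0` for `z < 1`). -/
def TOT_stmt : Prop := ∀ (n : ℕ) (ε : ℝ), 1 ≤ n → 0 < ε → ∃ C : ℝ, 1 ≤ C ∧
  ∀ (K : Type) [Field K] [NumberField K], Module.finrank ℚ K = n →
  ∀ (f : Ideal (𝓞 K)) (χ : Ideal (𝓞 K) → ℂ) (b : ClassGroup (𝓞 K) → Ideal (𝓞 K)) (t X : ℝ) (V : ℝ → ℂ)
    (ι : Type) (S : Finset ι) (a s : ι → ℝ) (m : ι → Ideal (𝓞 K)),
    HChar f χ → Rep b → (∀ c, b c ⊔ f = ⊤) → 0 < X → VV V → (∀ i ∈ S, 0 ≤ a i ∧ 0 < s i ∧ m i ≠ ⊥) →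
    (∀ c (k : InfinitePlace K → ℤ), Rel k → ‖TT (b c) (gg χ t (X * Nm (b c)) V) k‖ ≤
      ∑ i ∈ S, a i * nB (m i * b c) (X * Nm (b c)) k (s i)) →
    ‖SS χ t X V‖ ≤ C * ∑ i ∈ S, a i * (s i ^ n * X / Nm (m i)) ^ (1 + ε)

/-- **TRI** (short). The trivial bound. uses: IDN. At most `nI K (e X)` terms of modulus `≤ 1`. -/
def TRI_stmt : Prop := ∀ (n : ℕ) (ε : ℝ), 1 ≤ n → 0 < ε → ∃ C : ℝ, 1 ≤ C ∧
  ∀ (K : Type) [Field K] [NumberField K], Module.finrank ℚ K = n →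
  ∀ (f : Ideal (𝓞 K)) (χ : Ideal (𝓞 K) → ℂ) (t X : ℝ) (V : ℝ → ℂ), HChar f χ → 0 < X → VV V →
    ‖SS χ t X V‖ ≤ C * X ^ (1 + ε)

/-! ## Part 3: boxes -/

/-- **MNK** (medium). Minkowski. uses: PRO. `NumberField.mixedEmbedding.exists_ne_zero_mem_ideal_lt` for `J` (as a fractional ideal), `f w = s exp (cc Y k w)` (or a slightly smaller number, to get `≤`; or use it as it is, `<`),
`convexBodyLT_volume`, `minkowskiBound`, `volume_fundamentalDomain_fractionalIdealLatticeBasis`, `volume_fundamentalDomain_latticeBasis`: the condition is `2^{r1} π^{r2} ∏ (f w)^{mult w} > 2^n 2^{-r2} N(J) √D`, and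
`∏ (f w)^{mult w} = s^n Y exp(∑ mult w k w) ≥ s^n Y e^{-n}`. -/
def MNK_stmt : Prop := ∀ (K : Type) [Field K] [NumberField K] (J : Ideal (𝓞 K)) (Y s : ℝ)
  (k : InfinitePlace K → ℤ), J ≠ ⊥ → 0 < Y → 0 < s → Rel k →
  2 ^ (Module.finrank ℚ K + 1) * Real.exp (Module.finrank ℚ K) * Nm J * (Dc K) ^ (1 / 2 : ℝ) ≤
    s ^ Module.finrank ℚ K * Y → (Bx J Y k s).Nonempty

/-- **GRW** (medium). Growth of the boxes. uses: FIN0. Let `κ₀` be an element of `Bx J Y k (s/m)` for which `max_w w(κ₀) exp(-cc)` is maximal. The map `(κ, j) ↦ κ + j κ₀`, `κ ∈ Bx (s/m)`, `0 ≤ j < m`, goes into `Bx s ∪ {0}`, and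
has fibres of at most `3` elements (`(j - j') κ₀ = κ' - κ` has size `≤ 2 |κ₀|`). So `m N(s/m) ≤ 3 (N(s) + 1) ≤ 6 N(s)` if `N(s/m) ≥ 1`. -/
def GRW_stmt : Prop := ∀ (K : Type) [Field K] [NumberField K] (J : Ideal (𝓞 K)) (Y s : ℝ)
  (k : InfinitePlace K → ℤ) (m : ℕ), 0 < s → 1 ≤ m → nB J Y k (s / m) ≤ 6 * nB J Y k s / m

/-- **COV** (medium). Covering. uses: PRO, FIN0. Divide the box into cells: real places `⌊2 x_w exp(-cc)/ρ⌋`, complex places real and imaginary part (`w.embedding`): at most `(6 s/ρ)^n` cells, and two elements of one cell have `w(x - x') ≤ ρ exp(cc)`.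
Divide also modulo `g` (`Nm g` classes). In one piece all differences are in `g ⊓ b = g * b` (coprime) and so `0` or in `Bx (g * b) Y k ρ`. -/
def COV_stmt : Prop := ∀ (n : ℕ), ∃ C : ℝ, 1 ≤ C ∧
  ∀ (K : Type) [Field K] [NumberField K], Module.finrank ℚ K = n →
  ∀ (b g : Ideal (𝓞 K)) (Y s ρ : ℝ) (k : InfinitePlace K → ℤ), g ≠ ⊥ → b ⊔ g = ⊤ → 0 < ρ → ρ ≤ s →
    nB b Y k s ≤ C * (s / ρ) ^ n * Nm g * (1 + nB (g * b) Y k ρ)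

/-- **AVG** (medium). Averaging over shifts. uses: PRO, FIN0, TNT. If `FF b (gg χ t Y V) k y ≠ 0` then `|log N(y) - log Y| ≤ 1` (`VV.supp`) and `|log (w y) - log N(y) / n - k w| < 1`, so `|log (w y) - cc Y k w| ≤ 2` for all `w`.
For `y = x + v`, `w v ≤ exp(cc)/20`: `w x ≥ (e^(-2) - 1/20) exp(cc) ≥ e^(-3) exp(cc)` and `w x ≤ (e² + 1/20) exp(cc)`; so `x ∈ An`. Then `∑ᶠ x, FF x = ∑ᶠ x, FF (x + v i)` for every `i` (`finsum_comp_equiv`), sum over `i`. -/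
def AVG_stmt : Prop := ∀ (K : Type) [Field K] [NumberField K] (b : Ideal (𝓞 K)) (χ : Ideal (𝓞 K) → ℂ) (t Y : ℝ)
  (V : ℝ → ℂ) (k : InfinitePlace K → ℤ) (ι : Type) (S : Finset ι) (v : ι → 𝓞 K), VV V → 0 < Y →
  (∀ i ∈ S, v i ∈ b ∧ ∀ w : InfinitePlace K, w ((v i : 𝓞 K) : K) ≤ Real.exp (cc Y k w) / 20) →
  (An b Y k).Finite ∧ ((An b Y k).ncard : ℝ) ≤ nB b Y k (Real.exp 3) ∧
  (S.card : ℝ) * ‖TT b (gg χ t Y V) k‖ ≤
    ∑ᶠ x ∈ An b Y k, ‖∑ i ∈ S, FF b (gg χ t Y V) k (x + v i)‖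

/-- **TRV** (short). uses: AVG, TNT with `S` a singleton, `v = 0`; `‖gg‖ ≤ 1` as `‖χ I‖ ≤ 1`. -/
def TRV_stmt : Prop := ∀ (K : Type) [Field K] [NumberField K] (f b : Ideal (𝓞 K)) (χ : Ideal (𝓞 K) → ℂ) (t Y : ℝ)
  (V : ℝ → ℂ) (k : InfinitePlace K → ℤ), HChar f χ → VV V → 0 < Y →
  ‖TT b (gg χ t Y V) k‖ ≤ nB b Y k (Real.exp 3)

/-- **LN1** (medium). Norm and signs on a line. uses: PRO. `σ(x + hv) = σ(x)(1 + h σ(v)/σ(x))`, `|h σ(v)/σ(x)| ≤ 1/10` for all embeddings `σ` (`w = InfinitePlace.mk σ`); `|N(y)| = ∏_σ |σ(y)|` (`Algebra.norm_eq_prod_embeddings`). For real `φ`: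
`φ(x + hv) = φ(x)(1 + h φ(v)/φ(x))`, positive factor. -/
def LN1_stmt : Prop := ∀ (K : Type) [Field K] [NumberField K] (x v : 𝓞 K) (z : ℝ) (H : ℕ), x ≠ 0 → 0 ≤ z →
  (H : ℝ) * z ≤ 1 / 10 → (∀ w : InfinitePlace K, w (v : K) ≤ z * w (x : K)) →
  (∀ σ : K →+* ℂ, ‖σ (v : K) / σ (x : K)‖ ≤ z) ∧
  ∀ h : ℕ, h ≤ H → x + (h : 𝓞 K) * v ≠ 0 ∧
    Real.log (Nm (Ideal.span {x + (h : 𝓞 K) * v})) = Real.log (Nm (Ideal.span {x})) +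
      ∑ σ : K →+* ℂ, Real.log ‖1 + (h : ℂ) * (σ (v : K) / σ (x : K))‖ ∧
    (∀ φ : K →+* ℝ, 0 < φ ((x : 𝓞 K) : K) * φ ((x + (h : 𝓞 K) * v : 𝓞 K) : K)) ∧
    ∀ h' : ℕ, h' ≤ H → ∀ φ : K →+* ℝ,
      0 < φ ((x + (h : 𝓞 K) * v : 𝓞 K) : K) * φ ((x + (h' : 𝓞 K) * v : 𝓞 K) : K)

/-- **LN2** (medium). The weights on a line. uses: LN1, TNT, PRO. `|log |1 + (h+1) z_σ| - log |1 + h z_σ|| ≤ 2z` (`|z_σ| ≤ z`, `|h z_σ| ≤ 1/10`), so `log N` moves by `≤ 2 n z`, `log (w ·)` by `≤ 2z`; `V` and `tent` are Lipschitz and bounded by `1`. -/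
def LN2_stmt : Prop := ∀ (n : ℕ), ∃ C : ℝ, 1 ≤ C ∧
  ∀ (K : Type) [Field K] [NumberField K], Module.finrank ℚ K = n →
  ∀ (x v : 𝓞 K) (k : InfinitePlace K → ℤ) (Y z : ℝ) (V : ℝ → ℂ) (H : ℕ), VV V → x ≠ 0 → 0 ≤ z →
  (H : ℝ) * z ≤ 1 / 10 → (∀ w : InfinitePlace K, w (v : K) ≤ z * w (x : K)) →
  (∀ h : ℕ, h ≤ H → ‖WW V Y k x v h‖ ≤ 1) ∧
  ∀ h : ℕ, h + 1 ≤ H → ‖WW V Y k x v (h + 1) - WW V Y k x v h‖ ≤ C * z

/-- **ABC** (short). Complex Abel summation. -/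
def ABC_stmt : Prop := ∀ (z B : ℕ → ℂ) (H : ℕ) (M v : ℝ), 0 ≤ v →
  (∀ h', h' ≤ H → ‖∑ h ∈ Finset.range h', z h‖ ≤ M) → (∀ h, h < H → ‖B h‖ ≤ 1) →
  (∀ h, h + 1 < H → ‖B (h + 1) - B h‖ ≤ v) →
  ‖∑ h ∈ Finset.range H, z h * B h‖ ≤ M * (1 + H * v)

/-! ## Part 4: the t-aspect -/

/-- **TB** (medium/long). uses: CORE, MNK, AVG, LN1, LN2, ABC, PRO, MON, FIN0. Let `ρ, d₀, C₀` be those of CORE with `A = 2 e^6`, `s₀ = e^(-3) ρ |t|^(-η)`. MNK for `J = f * b`, `Y = X N(b)`, `s = s₀`: `v₀ ∈ Bx (f * b) Y k s₀`; `a₀ = max_w w(v₀) exp(-cc)`,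
`m = ⌊s₀/a₀⌋ ≥ 1`, `v = m v₀`: `max_w w(v) exp(-cc) ∈ [s₀/2, s₀]`. `H = ⌊|t|^η⌋₊`, shifts `h v`, `h < H` (sizes `≤ e^(-3) ρ ≤ 1/20`): AVG. For `x ∈ An`: `w v ≤ z w x`, `z = ρ |t|^(-η)`, and for one `σ`: `|σ v/σ x| ≥ z/(2 e^6)`. The summand is
`χ((x)) ph t (log N x) ph t (∑_σ log |1 + h z_σ|) WW ..` (`HChar.per`: `hv ∈ f`, signs by LN1; `x + hv ∈ b`, `≠ 0`). CORE for all `H' ≤ H`, ABC with LN2 (`H z ≤ 1/20`): inner sum `≤ C |t|^(η - d₀)`; `H ≥ |t|^η/2`. -/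
def TB_stmt : Prop := ∀ (n : ℕ) (η : ℝ), 1 ≤ n → 0 < η → η ≤ 1 / 4 → ∃ d C : ℝ, 0 < d ∧ 1 ≤ C ∧
  ∀ (K : Type) [Field K] [NumberField K], Module.finrank ℚ K = n →
  ∀ (f b : Ideal (𝓞 K)) (χ : Ideal (𝓞 K) → ℂ) (t X : ℝ) (V : ℝ → ℂ) (k : InfinitePlace K → ℤ),
    HChar f χ → b ≠ ⊥ → b ⊔ f = ⊤ → VV V → Rel k → 1 ≤ |t| → 0 < X →
    C * Nm f * (Dc K) ^ (1 / 2 : ℝ) * |t| ^ (n * η) ≤ X →
    ‖TT b (gg χ t (X * Nm b) V) k‖ ≤ C * |t| ^ (-d) * nB b (X * Nm b) k C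

/-- **PT** (medium). uses: TB, TOT, TRI, CLS, PRO. `Q = QQ (f₀ f₁) t`. TB with `η = κ/4`, `f = f₀ f₁`; `d ≤ κ/8`, `d ≤ d_TB/(2n)`. For `Q ≥ C'`: `N(f) |t|^(nη) ≤ Q^(1/2-κ) Q^(κ/2) Q^(κ/4)` and `X ≥ √D Q^(1/2-d)`: the condition of TB holds;
`(1+|t|)^n = Q/N(f) ≥ Q^(1/2)`, so `|t| ≥ 1` and `|t|^(-d_TB) ≤ 2 Q^(-d_TB/(2n))`. TOT with one index (`m = ⊤`, `s = C`). For `Q < C'`: TRI. -/
def PT_stmt : Prop := ∀ (n : ℕ) (κ : ℝ), 1 ≤ n → 0 < κ → κ ≤ 1 / 4 → ∃ d₀ : ℝ, 0 < d₀ ∧ ∀ d : ℝ, 0 < d → d ≤ d₀ →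
  ∀ ε : ℝ, 0 < ε → ∃ C : ℝ, 1 ≤ C ∧
  ∀ (K : Type) [Field K] [NumberField K], Module.finrank ℚ K = n →
  ∀ (f₀ f₁ : Ideal (𝓞 K)) (χ : Ideal (𝓞 K) → ℂ) (t X : ℝ) (V : ℝ → ℂ), HChar (f₀ * f₁) χ → VV V →
    Nm f₀ ≤ QQ (f₀ * f₁) t ^ (1 / 2 - κ) → Nm f₁ ≤ QQ (f₀ * f₁) t ^ (κ / 2) →
    (Dc K) ^ (1 / 2 : ℝ) * QQ (f₀ * f₁) t ^ (1 / 2 - d) ≤ X →
    ‖SS χ t X V‖ ≤ C * X ^ (1 + ε) * QQ (f₀ * f₁) t ^ (-d)

/-! ## Part 5: the level aspect -/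

/-- **PSI** (long; may be split by the prover). The character on a line. `ι` = the set of the prime divisors `P` of `h` (`h` squarefree, so `h = ∏ P = ⨅ P`), `F P = 𝓞 K ⧸ P` (`Ideal.Quotient.field`), `π` = reduction, `card = Nm P`. Let `f = g h`. For a unit `a` of `F P` put
`ψ_P(a) = χ((y))` for any `y` with `y ≡ a mod P`, `y ≡ 1 mod g ∏_{P' ≠ P} P'`, `y` totally positive (it exists: CRT, add a large multiple of `Nm f`; independent of `y` by `HChar.per`); `ψ_P` is multiplicative, and `≠ 1` by `HChar.prim` for `f/P`.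
Last part: if no element of `S` is prime to `f`, `s = 0`. Otherwise fix `y₀ ∈ S` prime to `f`; let `y' = y₀^(2e-1)`, `e` = exponent of `(𝓞 K/f)ˣ` (so `y₀ y' ≡ 1 mod f`, `y'` has the signs of `y₀`). For `y ∈ S` prime to `f`: `y y' ≡ 1 mod g` and totally positive, so
`χ((y)) χ((y')) = χ((y y')) = ∏ ψ_P(y y')` (general: `z ≡ 1 mod g` totally positive and prime to `f` is, modulo `f` and signs, a product of `y`'s as above); `s = χ((y'))⁻¹ ∏ ψ_P(y')`. Both sides are `0` if `y` is not prime to `f` (`y` is prime to `g` iff `y₀` is).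
Product of the `Nm P` over the `P` above `p`: their product divides `(p)`, of norm `p^n`. -/
def PSI_stmt : Prop := ∀ (K : Type) [Field K] [NumberField K] (g h : Ideal (𝓞 K)) (χ : Ideal (𝓞 K) → ℂ),
  HChar (g * h) χ → g ⊔ h = ⊤ → Squarefree h →
  ∃ (ι : Type) (_ : Fintype ι) (F : ι → Type) (_ : ∀ i, Field (F i)) (_ : ∀ i, Fintype (F i))
    (π : ∀ i, 𝓞 K →+* F i) (ψ : ∀ i, MulChar (F i) ℂ),
    (∀ i, ψ i ≠ 1) ∧ (∏ i, (Fintype.card (F i) : ℝ) = Nm h) ∧ (∀ y : 𝓞 K, (∀ i, π i y = 0) ↔ y ∈ h) ∧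
    (∀ y : 𝓞 K, Ideal.span {y} ⊔ h = ⊤ → ∀ i, π i y ≠ 0) ∧
    (∀ (p : ℕ) (S : Finset ι), p.Prime → (∀ i ∈ S, ((p : ℕ) : F i) = 0) →
      ∏ i ∈ S, (Fintype.card (F i) : ℝ) ≤ (p : ℝ) ^ Module.finrank ℚ K) ∧
    ∀ S : Set (𝓞 K), (∀ y ∈ S, y ≠ 0) →
      (∀ y ∈ S, ∀ y' ∈ S, y - y' ∈ g ∧ ∀ φ : K →+* ℝ, 0 < φ (y : K) * φ (y' : K)) →
      ∃ s : ℂ, ‖s‖ ≤ 1 ∧ ∀ y ∈ S, χ (Ideal.span {y}) = s * ∏ i, ψ i (π i y)

/-- **SQF** (short/medium). `h = span {v} ⊔ f₁` divides `f₁`; `f₁` squarefree, so `h` and `f₂ = f₁/h` are coprime, and a common prime divisor of `v` and `f₂` would divide `h`. -/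
def SQF_stmt : Prop := ∀ (K : Type) [Field K] [NumberField K] (f₀ f₁ : Ideal (𝓞 K)) (v : 𝓞 K), f₀ ⊔ f₁ = ⊤ →
  Squarefree f₁ → ∃ h f₂ : Ideal (𝓞 K), f₁ = h * f₂ ∧ v ∈ h ∧ Ideal.span {v} ⊔ f₂ = ⊤ ∧ Squarefree f₂ ∧
    (f₀ * h) ⊔ f₂ = ⊤ ∧ f₀ ⊔ h = ⊤

/-- **DIV** (medium). Divisors of a squarefree ideal: `2^ω` of them; the primes `P | f₁` with `Nm P ≥ 2^(1/ε)` contribute `2 ≤ Nm P^ε`, there are at most `n 2^(1/ε) + n` others (at most `n` primes above each `p`). First part: finiteness of the set of divisors of `f ≠ ⊥`. -/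
def DIV_stmt : Prop := (∀ (K : Type) [Field K] [NumberField K] (f g : Ideal (𝓞 K)), f ≠ ⊥ →
    (g ∈ dv f ↔ g ∣ f)) ∧
  ∀ (n : ℕ) (ε : ℝ), 1 ≤ n → 0 < ε → ∃ C : ℝ, 1 ≤ C ∧
  ∀ (K : Type) [Field K] [NumberField K], Module.finrank ℚ K = n → ∀ f : Ideal (𝓞 K), Squarefree f →
    ((dv f).card : ℝ) ≤ C * Nm f ^ ε

open Classical in
/-- **HOL** (short/medium). Hölder: `∑_{i ∈ P} B(π i) = ∑_u ν(u) B(u) ≤ (∑ ν)^(1-1/r) (∑ ν²)^(1/2r) (∑ B^(2r))^(1/2r)`, `∑ ν = |P|`, `∑ ν²` = number of pairs. (`inner_le_Lp_mul_Lq` twice, or Jensen.) -/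
def HOL_stmt : Prop := ∀ (ι F : Type) [Fintype F] (P : Finset ι) (π : ι → F) (B : F → ℝ) (r : ℕ), 1 ≤ r →
  (∀ u, 0 ≤ B u) → (∑ i ∈ P, B (π i)) ^ (2 * r) ≤ (P.card : ℝ) ^ (2 * r - 2) *
    (((P ×ˢ P).filter fun q => π q.1 = π q.2).card : ℝ) * ∑ u, B u ^ (2 * r)

open Classical in
/-- **ENE** (medium/long). The energy. uses: GRW, FIN0, MON. `q = ((x, m), (x', m'))`, `w = x m' - x' m ∈ h ⊓ b = h * b`, of size `≤ 2 s M`. `B = nB b Y k (2s)`. For `m ≠ m'` (primes) and given `w` two solutions `(x, x')` differ by `(κ m, κ m')`,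
`κ ∈ b` (`α m + β m' = 1`), of size `≤ 2s/max(m, m')`: at most `1 + 6 B/max(m, m')` solutions (GRW), and for `w = 0` all solutions are `(κ m, κ m')`, `κ ≠ 0`: at most `6 B/max(m, m')`. For `m = m'` and given `w` at most `B`. `∑_{m ≠ m'} 1/max(m, m') ≤ 2 |P|`, `|P| ≤ M ≤ B`. -/
def ENE_stmt : Prop := ∀ (K : Type) [Field K] [NumberField K] (b h : Ideal (𝓞 K)) (Y s : ℝ)
  (k : InfinitePlace K → ℤ) (M : ℕ) (X : Finset (𝓞 K)) (P : Finset ℕ), b ⊔ h = ⊤ → 0 < s →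
  (∀ x ∈ X, x ∈ Bx b Y k s) → (∀ m ∈ P, m.Prime ∧ m ≤ M) → (M : ℝ) ≤ nB b Y k (2 * s) →
  ((((X ×ˢ P) ×ˢ (X ×ˢ P)).filter fun q =>
    q.1.1 * ((q.2.2 : ℕ) : 𝓞 K) - q.2.1 * ((q.1.2 : ℕ) : 𝓞 K) ∈ h).card : ℝ) ≤
    20 * P.card * nB b Y k (2 * s) * (1 + nB (h * b) Y k (2 * s * M))

/-- **POL** (medium). The phase is a polynomial up to bounded variation. `log |1 + hz| = Re ∑_{j ≤ J} (-1)^(j-1) (hz)^j/j + R(h)`, `R'(h) = Re(± h^J z^(J+1)/(1 + hz))` (real `h`), so `|R(h+1) - R(h)| ≤ 2 H^J ζ^(J+1)` and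
`|t| n 2 H^J ζ^(J+1) ≤ 2n/H`. -/
def POL_stmt : Prop := ∀ (n J : ℕ), ∃ C : ℝ, 1 ≤ C ∧ ∀ (ι : Type) [Fintype ι], Fintype.card ι = n →
  ∀ (z : ι → ℂ) (t ζ : ℝ) (H : ℕ), 1 ≤ H → 0 ≤ ζ → (∀ i, ‖z i‖ ≤ ζ) → (H : ℝ) * ζ ≤ 1 / 10 →
  |t| * ((H : ℝ) * ζ) ^ (J + 1) ≤ 1 →
  ∃ (α : ℕ → ℝ) (B : ℕ → ℂ), (∀ h, ‖B h‖ = 1) ∧ (∀ h, h + 1 ≤ H → ‖B (h + 1) - B h‖ ≤ C / H) ∧
    ∀ h, h ≤ H → ph t (∑ i, Real.log ‖1 + (h : ℂ) * z i‖) =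
      ee (∑ j ∈ Finset.range J, α j * (h : ℝ) ^ (j + 1)) * B h

open Classical in
/-- **PRM** (medium). Chebyshev: `π(M) ≥ c M/log M` (central binomial coefficient: `4^m ≤ 2m C(2m, m) ≤ 2m (2m)^{π(2m)}`, `Nat.four_pow_lt_mul_centralBinom`, `Nat.factorization_choose_le_log`; or a library), at most `√M` primes are `≤ √M`, at most `2A` primes `> √M` divide `N`. -/
def PRM_stmt : Prop := ∀ A : ℕ, ∃ C : ℕ, ∀ M N : ℕ, C ≤ M → 1 ≤ N → N ≤ M ^ A →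
  (M : ℝ) ^ (1 / 2 : ℝ) ≤ (((Finset.range (M + 1)).filter fun p => p.Prime ∧ ¬ p ∣ N).card : ℝ)

/-- **AMG** (short). `T ≤ B^(1-θ) W^θ`, `θ = 1/(2r)`; weighted arithmetic-geometric mean. -/
def AMG_stmt : Prop := ∀ (r : ℕ) (T B W lam : ℝ), 1 ≤ r → 0 ≤ T → 0 ≤ B → 0 ≤ W → 0 < lam →
  T ^ (2 * r) ≤ B ^ (2 * r - 1) * W → T ≤ lam * B + lam⁻¹ ^ (2 * r - 1) * W

/-- **LV** (long). The bound from one shift vector `v`. uses: PSI, AST, HOL, ENE, POL, AMG, AVG, LN1, LN2, ABC, PRO, MON, FIN0. `Y = X N(b)`. Shifts `h' m v`, `(h', m) ∈ range H × P` (size `≤ HMρ ≤ 1/1000`). For `x ∈ An`, `m ∈ P` apply LN1, LN2, POL with `v := m v`,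
`z = ζ = e³ M ρ`. `S = {x + h' m v : h' < H}`: PSI for `(g, h)` (`v ∈ g`): `χ((x + h' m v)) = s ∏ ψ_i(π_i x + h' m π_i v) = s ∏ ψ_i(m π_i v) ∏ ψ_i(u_i + h')`, `u_i = π_i x/(m π_i v)` (`π_i v ≠ 0`; `(m : F i) ≠ 0` because `m` is a prime not dividing `Nm h`).
AST for all `H' ≤ H`, ABC with the weights `B h' * WW` (variation `≤ (C/H + C z) H ≤ C'`): inner sum `≤ C B(u(x, m))`. So `|P| H ‖TT‖ ≤ C ∑_{x, m} B(u(x, m))`. HOL (`F = ∏ F i`), the number of pairs is that of ENE (`s = e³`; `u(x, m) = u(x', m')` iff `x m' - x' m ∈ h`), `M ≤ nB b Y k (2e³)`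
because of the multiples `j v`, `j ≤ M` (`M ρ ≤ 1`). With `B = nB b Y k (2e³)`: `(|P| H T)^(2r) ≤ C (|P| B)^(2r-2) |P| B (1 + nB (h b) Y k (2e³ M)) H^(G+2r) N^(1/2+ε)`, so `T^(2r) ≤ C B^(2r-1) (1 + nB..) H^G N^(1/2+ε)/|P|`; AMG. -/
def LV_stmt : Prop := ∀ (n J r : ℕ) (ε : ℝ), 1 ≤ n → n ≤ 2 * r → 1 ≤ r → 0 < ε → ∃ C : ℝ, 1 ≤ C ∧
  ∀ (K : Type) [Field K] [NumberField K], Module.finrank ℚ K = n →
  ∀ (g h b : Ideal (𝓞 K)) (χ : Ideal (𝓞 K) → ℂ) (t X : ℝ) (V : ℝ → ℂ) (k : InfinitePlace K → ℤ) (v : 𝓞 K)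
    (ρ lam : ℝ) (H M : ℕ) (P : Finset ℕ), HChar (g * h) χ → g ⊔ h = ⊤ → Squarefree h → b ≠ ⊥ →
    b ⊔ (g * h) = ⊤ → VV V → 0 < X → v ∈ Bx (g * b) (X * Nm b) k ρ → Ideal.span {v} ⊔ h = ⊤ → 0 < ρ → 1 ≤ H →
    (M : ℝ) * H * ρ ≤ 1 / 1000 → |t| * (Real.exp 3 * M * H * ρ) ^ (J + 1) ≤ 1 →
    Nm h ≤ (H : ℝ) ^ (2 * r) → P.Nonempty → (∀ m ∈ P, m.Prime ∧ m ≤ M ∧ ¬ m ∣ Ideal.absNorm h) →
    0 < lam →
    ‖TT b (gg χ t (X * Nm b) V) k‖ ≤ C * (lam * nB b (X * Nm b) k C +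
      lam⁻¹ ^ (2 * r - 1) * (Nm h ^ (1 / 2 + ε) * (H : ℝ) ^ (J * (J + 1) / 2 + 1) / P.card) *
        (1 + nB (h * b) (X * Nm b) k (C * M)))

open Classical in
/-- **LB** (long). The bound for every `k`. uses: LV, SQF, PRM, DIV, COV, MNK, TRV, PRO, MON, FIN0. `Q = QQ (f₀ f₁) t`, `ρ = Q^(-κ/(2n))`, `J = ⌈4/κ⌉`, `G = J(J+1)/2 + 1`, `h₀ = κ/(128 n G)`, `H = ⌊Q^h₀⌋₊`, `r = ⌈1/h₀⌉` (so `H^(2r) ≥ (Q^h₀/2)^(2r) ≥ Q ≥ N(f₂)` for `Q` large),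
`M = ⌊Q^(κ/(16n))⌋₊`, `P` = the primes `≤ M` not dividing `absNorm f₁` (PRM: `|P| ≥ M^(1/2)`, as `N(f₁) ≤ Q ≤ (2M)^(16n/κ)`). Case (i): there is `v ∈ Bx (f₀ * b) Y k ρ` for which SQF gives `f₁ = h f₂` with `Q^(κ/4) ≤ N(f₂)`: LV with `g = f₀ h`, `h := f₂` (`v ∈ f₀ h b`, pairwise coprime),
`ε = κ/(128 n)`: `N(f₂)^(1/2+ε) H^G/|P| ≤ C N(f₂)^(1/2) Q^(κ/128n + κ/128n - κ/32n) ≤ C N(f₂)^(1/2) Q^(-κ/64n)`; `|t| (e³ M H ρ)^(J+1) ≤ Q^(1/n) (e³ Q^(-κ/4n))^(J+1) ≤ 1` for `Q` large (`J + 1 > 4/κ`).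
Case (ii): every `v ∈ Bx (f₀ * b) Y k ρ` is in `Bx (h * (f₀ * b)) Y k ρ` for a divisor `h` of `f₁` with `N(f₂) < Q^(κ/4)`, `N(f₁) = N(h) N(f₂)`. TRV, COV with `g = f₀`, `s = e³`; `1 ≤ nB (f₀ * b) Y k ρ` by MNK; `nB (f₀ * b) Y k ρ ≤ ∑_h nB (h * (f₀ * b)) Y k ρ`. -/
def LB_stmt : Prop := ∀ (n : ℕ) (κ : ℝ), 1 ≤ n → 0 < κ → κ ≤ 1 / 4 → ∃ (r : ℕ) (C : ℝ), 1 ≤ r ∧ 1 ≤ C ∧
  ∀ (K : Type) [Field K] [NumberField K], Module.finrank ℚ K = n →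
  ∀ (f₀ f₁ b : Ideal (𝓞 K)) (χ : Ideal (𝓞 K) → ℂ) (t X lam : ℝ) (V : ℝ → ℂ) (k : InfinitePlace K → ℤ),
    HChar (f₀ * f₁) χ → f₀ ⊔ f₁ = ⊤ → Squarefree f₁ → b ≠ ⊥ → b ⊔ (f₀ * f₁) = ⊤ → VV V → 0 < X → Rel k →
    0 < lam → C ≤ QQ (f₀ * f₁) t →
    C * Nm f₀ * (Dc K) ^ (1 / 2 : ℝ) * QQ (f₀ * f₁) t ^ (κ / 2) ≤ X →
    ‖TT b (gg χ t (X * Nm b) V) k‖ ≤ C * (lam * nB b (X * Nm b) k C +
      ∑ h ∈ (dv f₁).filter (fun h => QQ (f₀ * f₁) t ^ (κ / 4) ≤ Nm h),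
        lam⁻¹ ^ (2 * r - 1) * (Nm h ^ (1 / 2 : ℝ) * QQ (f₀ * f₁) t ^ (-(κ / (64 * n)))) *
          (1 + nB (h * b) (X * Nm b) k (C * QQ (f₀ * f₁) t ^ (κ / (16 * n)))) +
      Nm f₀ * QQ (f₀ * f₁) t ^ (κ / 2) *
        ∑ h ∈ (dv f₁).filter (fun h => Nm f₁ ≤ Nm h * QQ (f₀ * f₁) t ^ (κ / 4)),
          nB (h * (f₀ * b)) (X * Nm b) k (QQ (f₀ * f₁) t ^ (-(κ / (2 * n)))))

/-- **PL** (medium/long). uses: LB, TOT, TRI, CLS, DIV, MNK, PRO. `Q = QQ`. For `Q ≥ C'` the condition of LB holds (`N(f₀) Q^(κ/2) ≤ Q^(1/2-κ/2)`, `X ≥ √D Q^(1/2-d)`, `d ≤ κ/4`). `lam = Q^(-3d)`. TOT with the indices: `(m, s) = (⊤, C)`, `a = C lam`; for `h | f₁`, `N(h) ≥ Q^(κ/4)`: `a = C Q^(3d(2r-1)) N(h)^(1/2) Q^(-κ/64n)`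
with `(⊤, s₁)` (`s₁^n X = 2^(n+1) e^n √D`: `1 ≤ nB b Y k s₁` by MNK) and with `(h, C Q^(κ/16n))`; for `h | f₁`, `N(h) ≥ N(f₁) Q^(-κ/4)`: `(h f₀, ρ)`, `a = C N(f₀) Q^(κ/2)`, `ρ^n = Q^(-κ/2)`. Terms (TOT with `ε' ≤ ε/4` small; number of `h` `≤ C Q^(ε')`): `Q^(-3d) X^(1+ε')`;
`Q^(6dr) N(h)^(1/2) Q^(-κ/64n) (C √D)^(1+ε')` and `√D ≤ X Q^(d-1/2)`, `N(h) ≤ Q`: `≤ X^(1+..) Q^(6dr + d - κ/64n)`; `Q^(6dr) N(h)^(1/2) Q^(-κ/64n) (C Q^(κ/16) X/N(h))^(1+ε')`, `N(h) ≥ Q^(κ/4)`: exponent `6dr + κ/16 - κ/8 + ..`; last: `(X/N(h))^(1+ε')` times `(N(f₀) Q^(κ/2))^(-ε') ≤ 1`, and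
`N(h) ≥ N(f₁) Q^(-κ/4) ≥ Q^(κ/4)`. Choose `d₀ = κ/(64 n (10 r + 10))`. (`ε'` depends on `κ, n, r, d, ε`. `Q^(ε')` may be absorbed in `Q^(-3d)` etc.) For `Q < C'`: TRI. -/
def PL_stmt : Prop := ∀ (n : ℕ) (κ : ℝ), 1 ≤ n → 0 < κ → κ ≤ 1 / 4 → ∃ d₀ : ℝ, 0 < d₀ ∧ ∀ d : ℝ, 0 < d → d ≤ d₀ →
  ∀ ε : ℝ, 0 < ε → ∃ C : ℝ, 1 ≤ C ∧
  ∀ (K : Type) [Field K] [NumberField K], Module.finrank ℚ K = n →
  ∀ (f₀ f₁ : Ideal (𝓞 K)) (χ : Ideal (𝓞 K) → ℂ) (t X : ℝ) (V : ℝ → ℂ), HChar (f₀ * f₁) χ → f₀ ⊔ f₁ = ⊤ →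
    Squarefree f₁ → VV V → Nm f₀ ≤ QQ (f₀ * f₁) t ^ (1 / 2 - κ) → QQ (f₀ * f₁) t ^ (κ / 2) ≤ Nm f₁ →
    (Dc K) ^ (1 / 2 : ℝ) * QQ (f₀ * f₁) t ^ (1 / 2 - d) ≤ X →
    ‖SS χ t X V‖ ≤ C * X ^ (1 + ε) * QQ (f₀ * f₁) t ^ (-d)

/-- **PF** (short). `P_stmt` from PT, PL. `κ := min κ (1/4)` (`QQ ≥ 1`), `d` = the smaller `d₀`. -/
def PF_stmt : Prop := PT_stmt → PL_stmt → P_stmt

end Pool.Agent.UN
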