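import Pool.Agent.helper1.UN.Spec3
import Pool.Agent.helper13.UN.Defs4

/-!
# Project UN (MP_cf4097_nt), block H (Hecke's functional equation), part G: Gauss sums and the theta functional equation

RULES. Row `XXX` (part name unh:XXX): file `Pool/Agent/<seat>/UNH/XXX.lean`, `import Pool.Agent.helper13.UN.SpecG`, `set_option autoImplicit false`,
`namespace Pool.Agent.UN`, `theorem XXX : XXX_stmt` (any other `_stmt` of the UN specs may be added as a hypothesis, no circles). Auxiliary lemmas are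
prefixed `XXX_`. No straight double quotes, no convert / congr!. Land, note DONE + path, one line to helper13.
Paper proof: /team-store/H9_MP_cf4097_nt_helper13_FE.md. `D` below is `differentIdeal ℤ (𝓞 K)`, `n_w = mult w`, `a_w = aa m e w`.
-/

set_option autoImplicit false

open NumberField Complex

namespace Pool.Agent.UN

section defsG

variable {K : Type} [Field K] [NumberField K]

/-- a primitive character of `(𝓞 K / f)ˣ`, as a periodic function on all elements (`F 0 = 1` if `f = ⊤`) -/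
structure FC (f : Ideal (𝓞 K)) (F : 𝓞 K → ℂ) : Prop where
  one : F 1 = 1
  mul : ∀ x y : 𝓞 K, F (x * y) = F x * F y
  unit : ∀ x : 𝓞 K, Ideal.span {x} ⊔ f = ⊤ → ‖F x‖ = 1
  zero : ∀ x : 𝓞 K, Ideal.span {x} ⊔ f ≠ ⊤ → F x = 0
  per : ∀ x y : 𝓞 K, x - y ∈ f → F x = F y
  prim : ∀ g : Ideal (𝓞 K), f < g → ∃ x : 𝓞 K, x - 1 ∈ g ∧ Ideal.span {x} ⊔ f = ⊤ ∧ F x ≠ 1

/-- the archimedean character with the signs -/
noncomputable def Ai (τ : InfinitePlace K → ℝ) (m : InfinitePlace K → ℤ) (e : InfinitePlace K → ℕ) (x : K) : ℂ :=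
  ∏ w : InfinitePlace K, (w.embedding x / (‖w.embedding x‖ : ℂ)) ^ (e w) *
    (ph ((w.mult : ℝ) * τ w) (Real.log (w x)) * (w.embedding x / (‖w.embedding x‖ : ℂ)) ^ (m w))

/-- a representative of a class modulo `f` -/
noncomputable def ou {f : Ideal (𝓞 K)} (u : 𝓞 K ⧸ f) : 𝓞 K :=
  Function.surjInv (f := Ideal.Quotient.mk f) Ideal.Quotient.mk_surjective u

/-- the Gauss sum -/
noncomputable def gs (f : Ideal (𝓞 K)) (F : 𝓞 K → ℂ) (η : K) : ℂ :=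
  ∑ᶠ u : 𝓞 K ⧸ f, F (ou u) * et (η * ((ou u : 𝓞 K) : K))

/-- the theta series with the polynomial -/
noncomputable def Sb (b : Ideal (𝓞 K)) (F : 𝓞 K → ℂ) (m : InfinitePlace K → ℤ) (e : InfinitePlace K → ℕ)
    (y : InfinitePlace K → ℝ) : ℂ :=
  ∑' x : b, F (x : 𝓞 K) * Pm m e ((x : 𝓞 K) : K) * (Ga y ((x : 𝓞 K) : K) : ℂ)

/-- the admissible exponents -/
def Ad (m : InfinitePlace K → ℤ) (e : InfinitePlace K → ℕ) : Prop :=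
  (∀ w, w.IsReal → m w = 0) ∧ (∀ w, e w ≤ 1) ∧ (∀ w, w.IsComplex → e w = 0)

end defsG

/-! ## Part 1: signs and the finite part of the character -/

/-- **SAP** (medium). Weak approximation at the real places. First an `α ∈ 𝓞 K` with `φ α < 0` exactly for `φ ∈ S`: `K = ℚ(θ)` (`Field.exists_primitive_element`), the numbers `φ θ` for the real embeddings `φ` are distinct, take a real polynomial with the values `-1` (`φ ∈ S`) and `1`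
(`φ ∉ S`) at them (`Lagrange.interpolate`), approximate its coefficients by rational numbers, evaluate at `θ`, multiply by a positive integer (denominators). (Or: `NumberField.InfinitePlace.Completion` density, `mixedEmbedding` of a lattice, Minkowski.) Then `x = 1 + k N α` with `k` a large natural number (`φ α ≠ 0`);
if there are no real embeddings take `x = 1`. -/
def SAP_stmt : Prop := ∀ (K : Type) [Field K] [NumberField K] (N : ℕ) (S : Set (K →+* ℝ)), N ≠ 0 →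
  ∃ x : 𝓞 K, x ≠ 0 ∧ x - 1 ∈ Ideal.span {((N : ℕ) : 𝓞 K)} ∧
    ∀ φ : K →+* ℝ, (φ ∈ S → φ ((x : 𝓞 K) : K) < 0) ∧ (φ ∉ S → 0 < φ ((x : 𝓞 K) : K))

/-- **SGN** (medium/long). uses: SAP. `N = absNorm f ∈ f`. For `x : 𝓞 K` let `F x = G x'` for any `x' ≠ 0` with `x' - x ∈ f`, totally positive (exists: `x' = x + k N`, `k` large; independent of `x'` by `GC.per`): multiplicative, periodic, `FC` (prim from `GCP.prim`: the `x` there is totally positive, `F x = G x`).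
For a real place `w` let `x_w ≡ 1 mod f` be negative exactly at `w` (SAP): `G(x_w)² = G(x_w²) = 1` (`GC.per` with `1`), so `G(x_w) = (-1)^(e_w)`. For `x ≠ 0`: `x' = ` totally positive, `≡ x mod f`; `x ∏_{w : x_w < 0} x_w ≡ x'` with the same signs, so `G(x) ∏ (-1)^(e_w) = F(x)`.
For a real place the factor is `± 1` = the sign of `embedding_of_isReal w x`; the real embeddings `φ : K →+* ℝ` are the `InfinitePlace.embedding_of_isReal`. -/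
def SGN_stmt : Prop := ∀ (K : Type) [Field K] [NumberField K] (f : Ideal (𝓞 K)) (G : 𝓞 K → ℂ), GCP f G →
  ∃ (e : InfinitePlace K → ℕ) (F : 𝓞 K → ℂ), FC f F ∧ (∀ w, e w ≤ 1) ∧ (∀ w, w.IsComplex → e w = 0) ∧
    ∀ x : 𝓞 K, x ≠ 0 → G x = F x *
      ∏ w : InfinitePlace K, (w.embedding (x : K) / (‖w.embedding (x : K)‖ : ℂ)) ^ (e w)

/-- **AIF** (medium). Algebra of `Pm`, `Ai`. `‖w.embedding x‖ = w x` (`InfinitePlace.norm_embedding_eq`); for `x ≠ 0` and `z = w.embedding x`: `z^m` resp. `conj z^|m|` is `(z/‖z‖)^m ‖z‖^|m|`. `Ga y x = exp(-π ∑ n_w (w(x)² y_w))`; `((w x)² y_w)^(ex) = (w x)^(a_w + i n_w τ_w) y_w^(ex)` (`Complex.mul_cpow_ofReal_nonneg`),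
`ph (n_w τ_w) (log (w x)) (w x)^(i n_w τ_w) = 1`. -/
def AIF_stmt : Prop := ∀ (K : Type) [Field K] [NumberField K] (τ : InfinitePlace K → ℝ) (m : InfinitePlace K → ℤ)
  (e : InfinitePlace K → ℕ), Ad m e →
  (∀ x y : K, Pm m e (x * y) = Pm m e x * Pm m e y) ∧
  (∀ x y : K, x ≠ 0 → y ≠ 0 → Ai τ m e (x * y) = Ai τ m e x * Ai τ m e y) ∧
  (∀ x : K, x ≠ 0 → ‖Ai τ m e x‖ = 1 ∧ Pm m e x ≠ 0) ∧
  (∀ x : 𝓞 K, Ai τ m e (x : K) =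
    (∏ w : InfinitePlace K, (w.embedding (x : K) / (‖w.embedding (x : K)‖ : ℂ)) ^ (e w)) * Ar τ m x) ∧
  (∀ x : K, ‖Pm m e x‖ = ∏ w : InfinitePlace K, (w x) ^ (aa m e w)) ∧
  (∀ x : K, x ≠ 0 → Pm m e x = Ai τ m e x *
    ∏ w : InfinitePlace K, ((w x : ℝ) : ℂ) ^ ((aa m e w : ℂ) + (w.mult : ℂ) * (τ w : ℂ) * I)) ∧
  ∀ (x : K) (y : InfinitePlace K → ℝ), x ≠ 0 → (∀ w, 0 < y w) →
    Pm m e x * (∏ w : InfinitePlace K, ((y w : ℝ) : ℂ) ^ (ex τ (aa m e) w)) * (Ga y x : ℂ) =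
      Ai τ m e x * QT τ (aa m e) (fun w => (w x) ^ 2 * y w)

/-! ## Part 2: dual ideals and representatives -/

/-- **DUA** (medium). `Du M = (M D)⁻¹ = β⁻¹ C`. Mathlib: `FractionalIdeal.dual`, `FractionalIdeal.mem_dual`, `FractionalIdeal.dual_eq_mul_inv`, `coeIdeal_differentIdeal`, with `A = ℤ`, `K = ℚ`, `B = 𝓞 K`, `L = K`; `ξ ∈ Du M` is `trace (ξ * x) ∈ range (algebraMap ℤ ℚ)` for all `x ∈ M`. -/
def DUA_stmt : Prop := ∀ (K : Type) [Field K] [NumberField K] (M C : Ideal (𝓞 K)) (β : 𝓞 K), M ≠ ⊥ → C ≠ ⊥ → β ≠ 0 →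
  Ideal.span {β} = M * C * differentIdeal ℤ (𝓞 K) →
  ∀ ξ : K, ξ ∈ Du M ↔ ∃ x ∈ C, ξ * ((β : 𝓞 K) : K) = ((x : 𝓞 K) : K)

/-- **REP** (medium). uses: CLS, PRO. `b` from CLS; `J = D * f`, `σ c = (c [J])⁻¹` (an involution up to..: `Equiv.mulLeft`/`Equiv.inv`), `b c * b (σ c) * J` is principal (`ClassGroup.mk0_eq_one_iff`). `Nm D = Dc K`: `NumberField.absNorm_differentIdeal` (Mathlib.NumberTheory.NumberField.Discriminant.Different); `D ≠ ⊥`. -/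
def REP_stmt : Prop := ∀ (K : Type) [Field K] [NumberField K] (f : Ideal (𝓞 K)), f ≠ ⊥ →
  ∃ (b : ClassGroup (𝓞 K) → Ideal (𝓞 K)) (σ : ClassGroup (𝓞 K) ≃ ClassGroup (𝓞 K)) (β : ClassGroup (𝓞 K) → 𝓞 K),
    Rep b ∧ (∀ c, b c ⊔ f = ⊤) ∧ ∀ c, β c ≠ 0 ∧
      Ideal.span {β c} = (b c * f) * b (σ c) * differentIdeal ℤ (𝓞 K) ∧
      Nm (Ideal.span {β c}) = Nm (b c) * Nm (b (σ c)) * (Dc K * Nm f)

/-- **NUC** (short). `b ⊔ f = ⊤`: `ν ∈ b`, `ν - 1 ∈ f` (`Ideal.add_eq_one_iff`); if `f = ⊤` take any `ν ≠ 0` in `b`; if `f ≠ ⊤` then `ν ≠ 0`. `x - ν x = (1 - ν) x ∈ f ⊓ b = b * f` (`Ideal.inf_eq_mul_of_isCoprime`). -/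
def NUC_stmt : Prop := ∀ (K : Type) [Field K] [NumberField K] (b f : Ideal (𝓞 K)), b ≠ ⊥ → b ⊔ f = ⊤ →
  (∃ ν : 𝓞 K, ν ∈ b ∧ ν - 1 ∈ f ∧ ν ≠ 0) ∧ ∀ ν : 𝓞 K, ν ∈ b → ν - 1 ∈ f → ∀ x ∈ b, x - ν * x ∈ b * f

/-! ## Part 3: Gauss sums -/

/-- **GS0** (medium). `ee` is `1`-periodic in integers and additive, trace additive. (1) `et (η x) = et (η y)` if `x - y ∈ f`, `η ∈ Du f`. (2) the terms with `η`, `η'` agree. (3) `u ↦ s u` is a bijection of `𝓞 K ⧸ f` (`s` is invertible), `F (ou (s u)) = F (s * ou u) = F s * F (ou u)` and `et` is constant on classes: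
`gs η = ∑ F(ou (su)) et(η ou (su)) = F s * gs (η s)`, `conj (F s) * F s = 1`. -/
def GS0_stmt : Prop := ∀ (K : Type) [Field K] [NumberField K] (f : Ideal (𝓞 K)) (F : 𝓞 K → ℂ), f ≠ ⊥ → FC f F →
  (∀ η ∈ Du f, ∀ x y : 𝓞 K, x - y ∈ f → et (η * ((x : 𝓞 K) : K)) = et (η * ((y : 𝓞 K) : K))) ∧
  (∀ η η' : K, η - η' ∈ Du (⊤ : Ideal (𝓞 K)) → gs f F η = gs f F η') ∧
  ∀ η ∈ Du f, ∀ s : 𝓞 K, Ideal.span {s} ⊔ f = ⊤ →
    gs f F (η * ((s : 𝓞 K) : K)) = (starRingEnd ℂ) (F s) * gs f F η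

/-- **GSA** (medium). uses: GS0. If `v` is prime to `f`: GS0. If not: a maximal ideal `P ≥ span {v} ⊔ f`, `f = P * g` (`Ideal.dvd_iff_le`), `f < g` (`g = f` would give `f = P f`, `P = ⊤`; `f ≠ ⊥`). `FC.prim`: `x - 1 ∈ g`, `x` prime to `f`, `F x ≠ 1`. `η v ∈ Du f`; `v (x - 1) ∈ P g = f`, so `η v x - η v ∈ Du ⊤`:
`gs (η v) = gs (η v x) = conj (F x) gs (η v)`, so `gs (η v) = 0 = conj (F v) gs η`. -/
def GSA_stmt : Prop := ∀ (K : Type) [Field K] [NumberField K] (f : Ideal (𝓞 K)) (F : 𝓞 K → ℂ) (η : K), f ≠ ⊥ → FC f F →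
  η ∈ Du f → ∀ v : 𝓞 K, gs f F (η * ((v : 𝓞 K) : K)) = (starRingEnd ℂ) (F v) * gs f F η

/-- **GSB** (medium). uses: GSA, GS0. `∑_v |gs (η ou v)|² = ∑_{u, u'} F(ou u) conj (F(ou u')) ∑_v et(η (ou u - ou u') ou v)`; the inner sum is `Nm f` if `u = u'` and `0` otherwise (then `t = ou u - ou u' ∉ f`, so `η t ∉ Du ⊤`: there is `x` with `et(η t x) ≠ 1`, translate `v` by `x`).
So `∑_v |F(ou v)|² ‖gs η‖² = Nm f ∑_u |F(ou u)|²`, and `∑ |F|² ≥ 1` (`F (ou 1) `has modulus `1`). `card (𝓞 K ⧸ f) = absNorm f`. -/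
def GSB_stmt : Prop := ∀ (K : Type) [Field K] [NumberField K] (f : Ideal (𝓞 K)) (F : 𝓞 K → ℂ) (η : K), f ≠ ⊥ → FC f F →
  η ∈ Du f → (∀ t : 𝓞 K, η * ((t : 𝓞 K) : K) ∈ Du (⊤ : Ideal (𝓞 K)) → t ∈ f) → ‖gs f F η‖ ^ 2 = Nm f

/-- **GEN** (medium). uses: DUA (`M = ⊤`, `C = (b f) b'`, the same `β`), NUC. `η ∈ Du f`: for `z ∈ f`: `ν x₀ z ∈ b b' f`, so `ν x₀ z/β ∈ Du ⊤`. If `η t ∈ Du ⊤` then `ν x₀ t ∈ b f b' ≤ f`, and `t - ν x₀ t ∈ f`. `ν x' - ν x₀ x' = ν x' (1 - x₀) ∈ b (f ⊓ b') = b f b'`. -/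
def GEN_stmt : Prop := ∀ (K : Type) [Field K] [NumberField K] (b b' f : Ideal (𝓞 K)) (β ν x₀ : 𝓞 K), b ≠ ⊥ → b' ≠ ⊥ →
  f ≠ ⊥ → b ⊔ f = ⊤ → b' ⊔ f = ⊤ → β ≠ 0 → Ideal.span {β} = (b * f) * b' * differentIdeal ℤ (𝓞 K) →
  ν ∈ b → ν - 1 ∈ f → x₀ ∈ b' → x₀ - 1 ∈ f →
  ((ν * x₀ : 𝓞 K) : K) / ((β : 𝓞 K) : K) ∈ Du f ∧
  (∀ t : 𝓞 K, ((ν * x₀ : 𝓞 K) : K) / ((β : 𝓞 K) : K) * ((t : 𝓞 K) : K) ∈ Du (⊤ : Ideal (𝓞 K)) → t ∈ f) ∧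
  ∀ x' ∈ b', ((ν * x' : 𝓞 K) : K) / ((β : 𝓞 K) : K) -
    ((ν * x₀ : 𝓞 K) : K) / ((β : 𝓞 K) : K) * ((x' : 𝓞 K) : K) ∈ Du (⊤ : Ideal (𝓞 K))

/-- **GSD** (medium/long). The root number does not depend on the class. uses: GSA, GS0, GEN, DUA, AIF. `B = b b' d d' (D f)`; `z = μ y₀ β`, `z' = ν x₀ γ ∈ B`: `span {z'} = B 𝔟'`, `span {z} = B 𝔟` with `𝔟' (b b') = span {ν x₀}`, `𝔟 (d d') = span {μ y₀}`, both prime to `f`. So `span {z'} ⊔ B f = B`: there is `c` with `z - c z' ∈ B f`.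
`η_c = ν x₀/β`, `η_d = μ y₀/γ`: `c η_c - η_d = (c z' - z)/(β γ) ∈ Du ⊤` (DUA with `M = ⊤`, `C = B f`, `span {β γ} = B f D`), so `gs η_d = gs (η_c c) = conj (F c) gs η_c` (GSA). Choose `p ∈ 𝔟'`, `p - 1 ∈ f`, `p ≠ 0`: `span {p} = 𝔟' 𝔭`, so `p z = ω z'` with `ω ∈ 𝓞 K`, `span {ω} = 𝔭 𝔟`;
`(ω - p c) z' = p (z - c z') ∈ 𝔟' B f`, `= span {z'} f`, so `ω - p c ∈ f`, `F ω = F p F c = F c`. `χ((ω)) χ(𝔟') = χ((p)) χ(𝔟)`; `χ((ω)) = F c Ai ω`, `χ((p)) = Ai p`, `Ai p Ai z = Ai ω Ai z'`; `χ(𝔟') χ(b) χ(b') = χ((ν x₀)) = Ai(ν x₀)`, `χ(𝔟) χ(d) χ(d') = Ai(μ y₀)`. All moduli are `1`. -/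
def GSD_stmt : Prop := ∀ (K : Type) [Field K] [NumberField K] (f : Ideal (𝓞 K)) (χ : Ideal (𝓞 K) → ℂ)
  (τ : InfinitePlace K → ℝ) (m : InfinitePlace K → ℤ) (e : InfinitePlace K → ℕ) (F : 𝓞 K → ℂ)
  (b b' d d' : Ideal (𝓞 K)) (β γ ν x₀ μ y₀ : 𝓞 K), HCharG f χ τ m → Ad m e → FC f F →
  (∀ x : 𝓞 K, x ≠ 0 → χ (Ideal.span {x}) = F x * Ai τ m e (x : K)) →
  b ≠ ⊥ → b' ≠ ⊥ → d ≠ ⊥ → d' ≠ ⊥ → b ⊔ f = ⊤ → b' ⊔ f = ⊤ → d ⊔ f = ⊤ → d' ⊔ f = ⊤ → β ≠ 0 → γ ≠ 0 →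
  Ideal.span {β} = (b * f) * b' * differentIdeal ℤ (𝓞 K) →
  Ideal.span {γ} = (d * f) * d' * differentIdeal ℤ (𝓞 K) →
  (ν ∈ b ∧ ν - 1 ∈ f ∧ ν ≠ 0) → (x₀ ∈ b' ∧ x₀ - 1 ∈ f ∧ x₀ ≠ 0) → (μ ∈ d ∧ μ - 1 ∈ f ∧ μ ≠ 0) →
  (y₀ ∈ d' ∧ y₀ - 1 ∈ f ∧ y₀ ≠ 0) →
  gs f F (((ν * x₀ : 𝓞 K) : K) / ((β : 𝓞 K) : K)) * Ai τ m e ((β : 𝓞 K) : K) * (starRingEnd ℂ) (χ b * χ b') =
    gs f F (((μ * y₀ : 𝓞 K) : K) / ((γ : 𝓞 K) : K)) * Ai τ m e ((γ : 𝓞 K) : K) * (starRingEnd ℂ) (χ d * χ d')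

/-! ## Part 4: the theta functional equation -/

/-- **SPT** (medium). Splitting of a sum over `b` into the classes modulo `b f`. uses: NUC. `x ∈ b` corresponds to `(u, z)`, `u = mk x`, `z = x - ν ou u ∈ b * f` (`x - ν x ∈ b f`, `ν (x - ou u) ∈ b f`), an equivalence `b ≃ (𝓞 K ⧸ f) × (b * f)`; `F x = F (ou u)`. (`𝓞 K ⧸ f` is finite.) -/
def SPT_stmt : Prop := ∀ (K : Type) [Field K] [NumberField K] (b f : Ideal (𝓞 K)) (F : 𝓞 K → ℂ) (ν : 𝓞 K)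
  (h : 𝓞 K → ℂ), b ≠ ⊥ → f ≠ ⊥ → FC f F → ν ∈ b → ν - 1 ∈ f → b ⊔ f = ⊤ → Summable (fun x : b => h (x : 𝓞 K)) →
  Summable (fun x : b => F (x : 𝓞 K) * h (x : 𝓞 K)) ∧
  ∑' x : b, F (x : 𝓞 K) * h (x : 𝓞 K) =
    ∑ᶠ u : 𝓞 K ⧸ f, F (ou u) * ∑' z : (b * f : Ideal (𝓞 K)), h ((z : 𝓞 K) + ν * ou u)

/-- **PTF** (medium). Poisson summation for `Sb`. uses: PNF, SPT, DUA, GS0. `h x = Pm x * Ga y x` (summable over `b` by PNF with `r = 0`); PNF for `J = b * f`, `r = ν ou u`; `Du (b f) ≃ b'` by `ξ = x'/β` (DUA with `M = b f`, `C = b'`); `et(ξ ν ou u)`, the sum over `u` with the weights `F (ou u)` is `gs (ν x'/β)` (finite sum and `tsum` commute). -/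
def PTF_stmt : Prop := ∀ (K : Type) [Field K] [NumberField K] (b b' f : Ideal (𝓞 K)) (F : 𝓞 K → ℂ) (β ν : 𝓞 K)
  (m : InfinitePlace K → ℤ) (e : InfinitePlace K → ℕ) (y : InfinitePlace K → ℝ), b ≠ ⊥ → b' ≠ ⊥ → f ≠ ⊥ → FC f F →
  Ad m e → b ⊔ f = ⊤ → β ≠ 0 → Ideal.span {β} = (b * f) * b' * differentIdeal ℤ (𝓞 K) → ν ∈ b → ν - 1 ∈ f →
  (∀ w, 0 < y w) →
  Sb b F m e y = (-I) ^ (∑ w, aa m e w) / (((Dc K) ^ (1 / 2 : ℝ) * Nm (b * f) : ℝ) : ℂ) *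
    ((∏ w : InfinitePlace K, (y w) ^ (-((w.mult : ℝ) / 2 + aa m e w)) : ℝ) : ℂ) *
    ∑' x : b', gs f F (((ν * (x : 𝓞 K) : 𝓞 K) : K) / ((β : 𝓞 K) : K)) *
      (starRingEnd ℂ) (Pm m e (((x : 𝓞 K) : K) / ((β : 𝓞 K) : K))) *
      (Ga (fun w => 1 / y w) (((x : 𝓞 K) : K) / ((β : 𝓞 K) : K)) : ℂ)

/-- **SFE** (medium). uses: PTF, GEN, GSA, GS0, AIF. `gs (ν x'/β) = gs (η x') = conj (F x') gs η`, `η = ν x₀/β` (GEN, GS0, GSA); `Pm (x'/β) = Pm x'/Pm β`; `Ga (1/y) (x'/β) = Ga z x'`, `z_w = 1/(w(β)² y_w)`; the sum is the complex conjugate of `Sb b'` (`Complex.conj_tsum` / `starRingEnd` and `tsum`), as `Ga` is real. -/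
def SFE_stmt : Prop := ∀ (K : Type) [Field K] [NumberField K] (b b' f : Ideal (𝓞 K)) (F : 𝓞 K → ℂ) (β ν x₀ : 𝓞 K)
  (m : InfinitePlace K → ℤ) (e : InfinitePlace K → ℕ) (y : InfinitePlace K → ℝ), b ≠ ⊥ → b' ≠ ⊥ → f ≠ ⊥ → FC f F →
  Ad m e → b ⊔ f = ⊤ → b' ⊔ f = ⊤ → β ≠ 0 → Ideal.span {β} = (b * f) * b' * differentIdeal ℤ (𝓞 K) → ν ∈ b →
  ν - 1 ∈ f → x₀ ∈ b' → x₀ - 1 ∈ f → (∀ w, 0 < y w) →
  Sb b F m e y = (-I) ^ (∑ w, aa m e w) * gs f F (((ν * x₀ : 𝓞 K) : K) / ((β : 𝓞 K) : K)) /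
      ((((Dc K) ^ (1 / 2 : ℝ) * Nm (b * f) : ℝ) : ℂ) * (starRingEnd ℂ) (Pm m e ((β : 𝓞 K) : K))) *
    ((∏ w : InfinitePlace K, (y w) ^ (-((w.mult : ℝ) / 2 + aa m e w)) : ℝ) : ℂ) *
    (starRingEnd ℂ) (Sb b' F m e (fun w => 1 / ((w ((β : 𝓞 K) : K)) ^ 2 * y w)))

/-- **STH** (medium). From `Sb` to `Th`. uses: PNF (summability, `r = 0`), AIF. `δ = F 0 * Pm m e 0`: `F 0 = 0` if `f ≠ ⊤`; `F 0 = 1` if `f = ⊤` (`FC.per`, `FC.one`); `Pm m e 0 = 0` if one `a_w > 0`, `1` if all `a_w = 0`. In the last case (`f = ⊤`, `e = 0`, `m = 0`): `F x = 1` for all `x`, `Ai τ m e x = Ar τ m x`.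
For `x ≠ 0` in `b`: `F x * Pm x * Ga y x * ∏ y^(ex) = F x * Ai x * QT(..) = tq χ τ a y x` (AIF); for `x = 0`: `tq = 0` (`χ ⊥ = 0`), the left side is `δ ∏ y^(ex)`. Split off the term `x = 0` (`tsum` of a function supported at one point plus the rest, or `Summable.tsum_eq_add_tsum_ite`). -/
def STH_stmt : Prop := ∀ (K : Type) [Field K] [NumberField K] (f : Ideal (𝓞 K)) (χ : Ideal (𝓞 K) → ℂ)
  (τ : InfinitePlace K → ℝ) (m : InfinitePlace K → ℤ) (e : InfinitePlace K → ℕ) (F : 𝓞 K → ℂ),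
  HCharG f χ τ m → Ad m e → FC f F → (∀ x : 𝓞 K, x ≠ 0 → χ (Ideal.span {x}) = F x * Ai τ m e (x : K)) →
  ∃ δ : ℂ, (δ = 0 ∨ δ = 1 ∧ f = ⊤ ∧ (∀ w, e w = 0 ∧ m w = 0) ∧
      ∀ x : 𝓞 K, x ≠ 0 → χ (Ideal.span {x}) = Ar τ m x) ∧
    ∀ (b : Ideal (𝓞 K)) (y : InfinitePlace K → ℝ), b ≠ ⊥ → (∀ w, 0 < y w) →
      Th δ b χ τ (aa m e) y = (starRingEnd ℂ) (χ b) *
        (∏ w : InfinitePlace K, ((y w : ℝ) : ℂ) ^ (ex τ (aa m e) w)) * Sb b F m e y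

/-- **TFE** (medium/long). `theorem TFE (hHGC : HGC_stmt) (hSGN : SGN_stmt) (hAIF : AIF_stmt) (hREP : REP_stmt) (hNUC : NUC_stmt) (hGEN : GEN_stmt) (hGSB : GSB_stmt) (hGSD : GSD_stmt)
(hSTH : STH_stmt) (hSFE : SFE_stmt) (hPRO : PRO_stmt) : TFE_stmt`. HGC, SGN: `χ((x)) = G x Ar x = F x Ai x`. REP: `b, σ, β`. NUC: `ν c ∈ b c`. `w c = gs (ν c * ν (σ c)/β c)`, `‖w c‖ = √Nm f` (GEN, GSB); GSD: `w c * Ai(β c) * conj (χ(b c) χ(b (σ c)))` is independent of `c`, call it `w₀` (value at `c = 1`),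
`ε = (-I)^(∑ a) w₀/√(Nm f)`. STH twice (for `b c` and `b (σ c)`), SFE: `conj (z^(ex)) = z^(conj ex)`, `z_w = w(β)^(-2) y_w^(-1)`, `ex + conj ex = a_w`, `Pm β = Ai β ∏ w(β)^(a + i n τ)` (AIF), `‖χ (b c)‖ = 1`, `Nm (b c * f) = Nm (b c) Nm f`. -/
theorem TFE_doc : True := trivial

end Pool.Agent.UN
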